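import Pool.Agent.Work.MP_7ec17a_gt_T.Arcs

/-!
# Both orientations
-/

set_option autoImplicit false

open Set Filter Topology

namespace Pool.MP_7ec17a_gt.T

/-- Reflection in the main diagonal. -/
def flip (z : ℂ) : ℂ := ⟨z.im, z.re⟩

lemma flip_flip (z : ℂ) : flip (flip z) = z := rfl

lemma continuous_flip : Continuous flip := by
  have h : flip = fun z : ℂ => (z.im : ℂ) + z.re * Complex.I := by
    funext z
    apply Complex.ext <;> simp [flip]
  rw [h]
  fun_prop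

lemma flip_sub (z w : ℂ) : flip (z - w) = flip z - flip w := rfl

lemma norm_flip (z : ℂ) : ‖flip z‖ = ‖z‖ := by
  rw [Complex.norm_def, Complex.norm_def, Complex.normSq_apply, Complex.normSq_apply]
  congr 1
  simp only [flip]; ring

lemma flip_div (z : ℂ) (x : ℝ) : flip (z / (x : ℂ)) = flip z / (x : ℂ) := by
  apply Complex.ext
  · rw [Complex.div_ofReal_re]; simp only [flip]; rw [Complex.div_ofReal_im]
  · rw [Complex.div_ofReal_im]; simp only [flip]; rw [Complex.div_ofReal_re]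

lemma cr_flip (e z : ℂ) : cr (flip e) (flip z) = -cr e z := by
  simp only [cr, flip]; ring

lemma flip_rot (r : ℝ) (v : ℂ) : flip (rot r (flip v)) = -rot r v := by
  apply Complex.ext <;> simp [flip, rot]

lemma rot_eq (r : ℝ) (v : ℂ) : rot r v = Complex.I * (r : ℂ) * v := by
  apply Complex.ext <;> simp [rot]

/-- The theorem for clamped arcs. -/
theorem core_mid {a b : ℝ → ℂ} {B : ℂ} (ha : Continuous a) (hb : Continuous b)
    (a0 : ∀ s, s ≤ 0 → a s = 0) (a1 : ∀ s, 1 ≤ s → a s = B)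
    (b0 : ∀ s, s ≤ 0 → b s = 0) (b1 : ∀ s, 1 ≤ s → b s = B)
    (ba : ∀ s, 0 ≤ (a s).re ∧ (a s).re ≤ B.re ∧ 0 ≤ (a s).im ∧ (a s).im ≤ B.im)
    (bb : ∀ s, 0 ≤ (b s).re ∧ (b s).re ≤ B.re ∧ 0 ≤ (b s).im ∧ (b s).im ≤ B.im)
    (inj : InjOn a (Icc 0 1)) (injb : InjOn b (Icc 0 1))
    (disj : ∀ s ∈ Ioo (0 : ℝ) 1, ∀ t, a s ≠ b t)
    {e : ℂ} (he : Tendsto (fun t => b t / (‖b t‖ : ℂ)) (𝓝[>] 0) (𝓝 e))
    (hLA : ∃ ε : ℝ, 0 < ε ∧ ∀ᶠ s in 𝓝[>] (0 : ℝ), ε ≤ ‖a s / (‖a s‖ : ℂ) - e‖)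
    {f : ℂ} (hf : Tendsto (fun t => (b t - B) / (‖b t - B‖ : ℂ)) (𝓝[<] 1) (𝓝 f))
    (hLB : ∃ ε : ℝ, 0 < ε ∧ ∀ᶠ s in 𝓝[<] (1 : ℝ), ε ≤ ‖(a s - B) / (‖a s - B‖ : ℂ) - f‖)
    {r : ℝ} (hr : 0 < r) : ∃ p v : ℂ, v ≠ 0 ∧ p ∈ range a ∧ p + v ∈ range a ∧
      p + v + rot r v ∈ range b ∧ p + rot r v ∈ range b := by
  have ane0 : ∀ t ∈ Ioc (0 : ℝ) 1, a t ≠ 0 := by
    intro t ht h
    have : a t = a 0 := by rw [h, a0 0 le_rfl]
    have := inj ⟨ht.1.le, ht.2⟩ ⟨le_rfl, zero_le_one⟩ this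
    linarith [ht.1]
  have ane1 : ∀ t ∈ Ico (0 : ℝ) 1, a t - B ≠ 0 := by
    intro t ht h
    have : a t = a 1 := by rw [a1 1 le_rfl]; exact sub_eq_zero.1 h
    have := inj ⟨ht.1, ht.2.le⟩ ⟨zero_le_one, le_rfl⟩ this
    linarith [ht.2]
  have bne0 : ∀ t ∈ Ioc (0 : ℝ) 1, b t ≠ 0 := by
    intro t ht h
    have : b t = b 0 := by rw [h, b0 0 le_rfl]
    have := injb ⟨ht.1.le, ht.2⟩ ⟨le_rfl, zero_le_one⟩ this
    linarith [ht.1]
  have bne1 : ∀ t ∈ Ico (0 : ℝ) 1, b t - B ≠ 0 := by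
    intro t ht h
    have : b t = b 1 := by rw [b1 1 le_rfl]; exact sub_eq_zero.1 h
    have := injb ⟨ht.1, ht.2.le⟩ ⟨zero_le_one, le_rfl⟩ this
    linarith [ht.2]
  have ev0 : ∀ᶠ t in 𝓝[>] (0 : ℝ), t ∈ Ioc (0 : ℝ) 1 := Ioc_mem_nhdsGT one_pos
  have ev1 : ∀ᶠ t in 𝓝[<] (1 : ℝ), t ∈ Ico (0 : ℝ) 1 := Ico_mem_nhdsLT one_pos
  have he1 : ‖e‖ = 1 := by
    have h1 := he.norm
    have h2 : Tendsto (fun t => ‖b t / (‖b t‖ : ℂ)‖) (𝓝[>] 0) (𝓝 1) := by
      refine tendsto_const_nhds.congr' ?_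
      filter_upwards [ev0] with t ht
      exact (norm_div_norm (bne0 t ht)).symm
    exact tendsto_nhds_unique h1 h2
  have hf1 : ‖f‖ = 1 := by
    have h1 := hf.norm
    have h2 : Tendsto (fun t => ‖(b t - B) / (‖b t - B‖ : ℂ)‖) (𝓝[<] 1) (𝓝 1) := by
      refine tendsto_const_nhds.congr' ?_
      filter_upwards [ev1] with t ht
      exact (norm_div_norm (bne1 t ht)).symm
    exact tendsto_nhds_unique h1 h2
  have her : 0 ≤ e.re := by
    refine ge_of_tendsto ((Complex.continuous_re.tendsto e).comp he) ?_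
    filter_upwards with t
    change 0 ≤ (b t / (‖b t‖ : ℂ)).re
    rw [Complex.div_ofReal_re]
    exact div_nonneg (bb t).1 (norm_nonneg _)
  have hei : 0 ≤ e.im := by
    refine ge_of_tendsto ((Complex.continuous_im.tendsto e).comp he) ?_
    filter_upwards with t
    change 0 ≤ (b t / (‖b t‖ : ℂ)).im
    rw [Complex.div_ofReal_im]
    exact div_nonneg (bb t).2.2.1 (norm_nonneg _)
  have hfr : f.re ≤ 0 := by
    refine le_of_tendsto ((Complex.continuous_re.tendsto f).comp hf) ?_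
    filter_upwards with t
    change ((b t - B) / (‖b t - B‖ : ℂ)).re ≤ 0
    rw [Complex.div_ofReal_re]
    refine div_nonpos_of_nonpos_of_nonneg ?_ (norm_nonneg _)
    rw [Complex.sub_re]; linarith [(bb t).2.1]
  have hfi : f.im ≤ 0 := by
    refine le_of_tendsto ((Complex.continuous_im.tendsto f).comp hf) ?_
    filter_upwards with t
    change ((b t - B) / (‖b t - B‖ : ℂ)).im ≤ 0
    rw [Complex.div_ofReal_im]
    refine div_nonpos_of_nonpos_of_nonneg ?_ (norm_nonneg _)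
    rw [Complex.sub_im]; linarith [(bb t).2.2.2]
  -- the other end
  have hLB' : ∃ ε : ℝ, 0 < ε ∧ ∃ s1 ∈ Ico (0 : ℝ) 1, ∀ s ∈ Icc s1 1,
      ε * ‖a s - B‖ ≤ |cr f (a s - B)| := by
    obtain ⟨ε, hε, hev⟩ := hLB
    obtain ⟨u, hu, hu'⟩ := mem_nhdsLT_iff_exists_Ioo_subset.1 (hev.and ev1)
    have hu1 : u < 1 := hu
    refine ⟨ε / 2, by positivity, max 0 ((u + 1) / 2), ⟨le_max_left _ _,
      max_lt one_pos (by linarith)⟩, fun s hs => ?_⟩
    rcases hs.2.lt_or_eq with h | h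
    · have hs1 : u < s := by
        have := (le_max_right 0 ((u + 1) / 2)).trans hs.1
        linarith
      obtain ⟨h1, h2⟩ := hu' ⟨hs1, h⟩
      have hz := ane1 s h2
      set x := (a s - B) / (‖a s - B‖ : ℂ) with hx
      have hx1 : ‖x‖ = 1 := norm_div_norm hz
      have hxr : x.re ≤ 0 := by
        rw [hx, Complex.div_ofReal_re]
        refine div_nonpos_of_nonpos_of_nonneg ?_ (norm_nonneg _)
        rw [Complex.sub_re]; linarith [(ba s).2.1]
      have hxi : x.im ≤ 0 := by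
        rw [hx, Complex.div_ofReal_im]
        refine div_nonpos_of_nonpos_of_nonneg ?_ (norm_nonneg _)
        rw [Complex.sub_im]; linarith [(ba s).2.2.2]
      have key := cr_ge (e := -f) (x := -x) (by rw [norm_neg]; exact hf1)
        (by rw [norm_neg]; exact hx1) (by rw [Complex.neg_re]; linarith)
        (by rw [Complex.neg_im]; linarith) (by rw [Complex.neg_re]; linarith)
        (by rw [Complex.neg_im]; linarith) hε (by
          have e1 : -x - -f = -(x - f) := by ring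
          rw [e1, norm_neg]; exact h1)
      have e2 : cr (-f) (-x) = cr f x := by
        simp only [cr, Complex.neg_re, Complex.neg_im]; ring
      rw [e2] at key
      have e3 : cr f (a s - B) = ‖a s - B‖ * cr f x := by
        nth_rewrite 1 [eq_norm_smul hz]
        rw [cr_smul]
      rw [e3, abs_mul, abs_norm, mul_comm]
      exact mul_le_mul_of_nonneg_left key (norm_nonneg _)
    · rw [h, a1 1 le_rfl, sub_self, norm_zero, mul_zero]
      exact abs_nonneg _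
  -- the sign at `0`
  obtain ⟨ε, hε, hev⟩ := hLA
  obtain ⟨u, hu, hu'⟩ := mem_nhdsGT_iff_exists_Ioo_subset.1 (hev.and ev0)
  have hu0 : (0 : ℝ) < u := hu
  set s1 : ℝ := min (u / 2) 1 with hs1
  have hs10 : 0 < s1 := lt_min (by positivity) one_pos
  have hs11 : s1 ≤ 1 := min_le_right _ _
  have hs12 : s1 < u := lt_of_le_of_lt (min_le_left _ _) (by linarith)
  have habs : ∀ s ∈ Ioc 0 s1, ε / 2 * ‖a s‖ ≤ |cr e (a s)| := by
    intro s hs
    obtain ⟨h1, h2⟩ := hu' ⟨hs.1, lt_of_le_of_lt hs.2 hs12⟩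
    have hz := ane0 s h2
    set x := a s / (‖a s‖ : ℂ) with hx
    have hx1 : ‖x‖ = 1 := norm_div_norm hz
    have hxr : 0 ≤ x.re := by
      rw [hx, Complex.div_ofReal_re]; exact div_nonneg (ba s).1 (norm_nonneg _)
    have hxi : 0 ≤ x.im := by
      rw [hx, Complex.div_ofReal_im]; exact div_nonneg (ba s).2.2.1 (norm_nonneg _)
    have key := cr_ge he1 hx1 her hei hxr hxi hε h1
    have e3 : cr e (a s) = ‖a s‖ * cr e x := by
      nth_rewrite 1 [eq_norm_smul hz]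
      rw [cr_smul]
    rw [e3, abs_mul, abs_norm, mul_comm]
    exact mul_le_mul_of_nonneg_left key (norm_nonneg _)
  have hcont : Continuous fun s => cr e (a s) := (continuous_cr e).comp ha
  have hnz : ∀ s ∈ Ioc 0 s1, cr e (a s) ≠ 0 := by
    intro s hs h
    have h1 := habs s hs
    rw [h, abs_zero] at h1
    have h2 : 0 < ‖a s‖ := norm_pos_iff.2 (ane0 s ⟨hs.1, hs.2.trans hs11⟩)
    have : 0 < ε / 2 * ‖a s‖ := by positivity
    linarith
  have hsgn : (∀ s ∈ Ioc 0 s1, cr e (a s) < 0) ∨ (∀ s ∈ Ioc 0 s1, 0 < cr e (a s)) := by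
    have hpre : (fun s => cr e (a s)) '' Ioc 0 s1 |>.OrdConnected :=
      (isPreconnected_Ioc.image _ hcont.continuousOn).ordConnected
    rcases lt_or_gt_of_ne (hnz s1 ⟨hs10, le_rfl⟩) with h | h
    · left
      intro s hs
      by_contra h'
      push Not at h'
      obtain ⟨t, ht, ht'⟩ := hpre.out (mem_image_of_mem _ (⟨hs10, le_rfl⟩ : s1 ∈ Ioc 0 s1))
        (mem_image_of_mem _ hs) ⟨h.le, h'⟩
      exact hnz t ht ht'
    · right
      intro s hs
      by_contra h'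
      push Not at h'
      obtain ⟨t, ht, ht'⟩ := hpre.out (mem_image_of_mem _ hs)
        (mem_image_of_mem _ (⟨hs10, le_rfl⟩ : s1 ∈ Ioc 0 s1)) ⟨h', h.le⟩
      exact hnz t ht ht'
  rcases hsgn with hneg | hpos
  · -- `b` is the upper arc
    have hLA' : ∃ ε : ℝ, 0 < ε ∧ ∃ s1 ∈ Ioc (0 : ℝ) 1, ∀ s ∈ Icc 0 s1,
        cr e (a s) ≤ -(ε * ‖a s‖) := by
      refine ⟨ε / 2, by positivity, s1, ⟨hs10, hs11⟩, fun s hs => ?_⟩
      rcases hs.1.lt_or_eq with h | h
      · have h1 := habs s ⟨h, hs.2⟩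
        rw [abs_of_neg (hneg s ⟨h, hs.2⟩)] at h1
        linarith
      · rw [← h, a0 0 le_rfl]; simp [cr]
    obtain ⟨s, hs, s', hs', hss, hw, hq⟩ := core_low ha hb a0 a1 b0 b1 ba bb inj injb disj he hLA'
      hf hLB' hr
    refine ⟨a s, a s' - a s, ?_, ⟨s, rfl⟩, ⟨s', by ring⟩, ?_, hw⟩
    · intro h
      have := inj hs' hs (sub_eq_zero.1 h)
      linarith
    · have e1 : a s + (a s' - a s) + rot r (a s' - a s) = a s' + rot r (a s' - a s) := by ring
      rw [e1]; exact hq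
  · -- `b` is the lower arc: reflect
    have hLA' : ∃ ε : ℝ, 0 < ε ∧ ∃ s1 ∈ Ioc (0 : ℝ) 1, ∀ s ∈ Icc 0 s1,
        cr (flip e) (flip (a s)) ≤ -(ε * ‖flip (a s)‖) := by
      refine ⟨ε / 2, by positivity, s1, ⟨hs10, hs11⟩, fun s hs => ?_⟩
      rw [cr_flip, norm_flip]
      rcases hs.1.lt_or_eq with h | h
      · have h1 := habs s ⟨h, hs.2⟩
        rw [abs_of_pos (hpos s ⟨h, hs.2⟩)] at h1
        linarith
      · rw [← h, a0 0 le_rfl]; simp [cr]
    have hLB'' : ∃ ε : ℝ, 0 < ε ∧ ∃ s1 ∈ Ico (0 : ℝ) 1, ∀ s ∈ Icc s1 1,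
        ε * ‖flip (a s) - flip B‖ ≤ |cr (flip f) (flip (a s) - flip B)| := by
      obtain ⟨ε', hε', s2, hs2, h⟩ := hLB'
      refine ⟨ε', hε', s2, hs2, fun s hs => ?_⟩
      rw [← flip_sub, norm_flip, cr_flip, abs_neg]
      exact h s hs
    have finj : ∀ x y : ℂ, flip x = flip y → x = y := fun x y h => by
      have := congrArg flip h
      rwa [flip_flip, flip_flip] at this
    have fe : Tendsto (fun t => flip (b t) / (‖flip (b t)‖ : ℂ)) (𝓝[>] 0) (𝓝 (flip e)) := by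
      refine ((continuous_flip.tendsto e).comp he).congr fun t => ?_
      change flip (b t / (‖b t‖ : ℂ)) = _
      rw [flip_div, norm_flip]
    have ff : Tendsto (fun t => (flip (b t) - flip B) / (‖flip (b t) - flip B‖ : ℂ)) (𝓝[<] 1)
        (𝓝 (flip f)) := by
      refine ((continuous_flip.tendsto f).comp hf).congr fun t => ?_
      change flip ((b t - B) / (‖b t - B‖ : ℂ)) = _
      rw [flip_div, ← flip_sub, norm_flip]
    obtain ⟨s, hs, s', hs', hss, ⟨t, ht⟩, ⟨t', ht'⟩⟩ := core_low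
      (a := fun s => flip (a s)) (b := fun s => flip (b s)) (B := flip B)
      (continuous_flip.comp ha) (continuous_flip.comp hb)
      (fun s hs => by rw [a0 s hs]; rfl) (fun s hs => by rw [a1 s hs])
      (fun s hs => by rw [b0 s hs]; rfl) (fun s hs => by rw [b1 s hs])
      (fun s => ⟨(ba s).2.2.1, (ba s).2.2.2, (ba s).1, (ba s).2.1⟩)
      (fun s => ⟨(bb s).2.2.1, (bb s).2.2.2, (bb s).1, (bb s).2.1⟩)
      (fun x hx y hy h => inj hx hy (finj _ _ h))
      (fun x hx y hy h => injb hx hy (finj _ _ h))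
      (fun s hs t h => disj s hs t (finj _ _ h)) fe hLA' ff hLB'' hr
    have ht : flip (b t) = flip (a s) + rot r (flip (a s') - flip (a s)) := ht
    have ht' : flip (b t') = flip (a s') + rot r (flip (a s') - flip (a s)) := ht'
    have key : ∀ x y z : ℂ, flip z = flip x + rot r (flip y) → z = x - rot r y := by
      intro x y z h
      have h1 := congrArg flip h
      rw [flip_flip] at h1
      rw [h1]
      have : flip (flip x + rot r (flip y)) = flip (flip x) + flip (rot r (flip y)) := rfl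
      rw [this, flip_flip, flip_rot]; ring
    rw [← flip_sub] at ht ht'
    have k1 := key _ _ _ ht
    have k2 := key _ _ _ ht'
    have hrn : ∀ v : ℂ, rot r (-v) = -rot r v := fun v => by
      apply Complex.ext <;> simp [rot]
    refine ⟨a s', -(a s' - a s), ?_, ⟨s', rfl⟩, ⟨s, by ring⟩, ?_, ?_⟩
    · intro h
      have := inj hs' hs (sub_eq_zero.1 (neg_eq_zero.1 h))
      linarith
    · refine ⟨t, ?_⟩
      rw [k1, hrn]; ring
    · refine ⟨t', ?_⟩
      rw [k2, hrn]; ring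

end Pool.MP_7ec17a_gt.T
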