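import Pool.Agent.Work.MP_7ec17a_gt_T.Main

/-!
# From two arcs with half-tangents to a configuration
-/

set_option autoImplicit false

open Set Filter Topology

namespace Pool.MP_7ec17a_gt.T

/-- Unit vectors of the closed quadrant at distance at least `ε` have a large cross product. -/
lemma cr_ge {e x : ℂ} (he : ‖e‖ = 1) (hx : ‖x‖ = 1) (he1 : 0 ≤ e.re) (he2 : 0 ≤ e.im)
    (hx1 : 0 ≤ x.re) (hx2 : 0 ≤ x.im) {ε : ℝ} (hε : 0 < ε) (h : ε ≤ ‖x - e‖) :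
    ε / 2 ≤ |cr e x| := by
  have h1 := sq_add_sq he x
  rw [hx] at h1
  have hdt : 0 ≤ dt e x := add_nonneg (mul_nonneg he1 hx1) (mul_nonneg he2 hx2)
  have es : e.re * e.re + e.im * e.im = 1 := by
    rw [← Complex.normSq_apply, Complex.normSq_eq_norm_sq, he, one_pow]
  have xs : x.re * x.re + x.im * x.im = 1 := by
    rw [← Complex.normSq_apply, Complex.normSq_eq_norm_sq, hx, one_pow]
  have h2 : ‖x - e‖ ^ 2 = 2 - 2 * dt e x := by
    rw [← Complex.normSq_eq_norm_sq, Complex.normSq_apply]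
    simp only [dt, Complex.sub_re, Complex.sub_im]
    nlinarith
  have h3 : ε ^ 2 ≤ ‖x - e‖ ^ 2 := pow_le_pow_left₀ hε.le h 2
  have h4 : (ε / 2) ^ 2 ≤ cr e x ^ 2 := by nlinarith [sq_nonneg (dt e x)]
  have h5 := sq_le_sq.1 h4
  rwa [abs_of_pos (by positivity)] at h5

lemma norm_div_norm {z : ℂ} (hz : z ≠ 0) : ‖z / (‖z‖ : ℂ)‖ = 1 := by
  rw [norm_div, Complex.norm_real, norm_norm, div_self (norm_ne_zero_iff.2 hz)]

lemma eq_norm_smul {z : ℂ} (hz : z ≠ 0) : z = ‖z‖ • (z / (‖z‖ : ℂ)) := by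
  have h : (‖z‖ : ℂ) ≠ 0 := Complex.ofReal_ne_zero.2 (norm_ne_zero_iff.2 hz)
  rw [Complex.real_smul, mul_div_cancel₀ _ h]

/-- The thin cone around a half-tangent. -/
lemma thin {b : ℝ → ℂ} {e : ℂ}
    {l : Filter ℝ} (hl : ∀ P : ℝ → Prop, (∀ᶠ t in l, P t) → ∃ ρ : ℝ, 0 < ρ ∧
      ∀ t, ‖b t‖ < ρ → P t ∨ b t = 0)
    (he : Tendsto (fun t => b t / (‖b t‖ : ℂ)) l (𝓝 e)) (he1 : ‖e‖ = 1) :
    ∀ c : ℝ, 0 < c → ∃ ρ : ℝ, 0 < ρ ∧ ∀ t, ‖b t‖ < ρ → |cr e (b t)| ≤ c * ‖b t‖ := by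
  intro c hc
  have hev : ∀ᶠ t in l, ‖b t / (‖b t‖ : ℂ) - e‖ < c := by
    have := he.sub_const e
    rw [sub_self] at this
    have := this.norm
    rw [norm_zero] at this
    exact this.eventually (gt_mem_nhds hc)
  obtain ⟨ρ, hρ0, hρ⟩ := hl _ hev
  refine ⟨ρ, hρ0, fun t ht => ?_⟩
  by_cases hz : b t = 0
  · rw [hz]; simp [cr]
  · have h1 := (hρ t ht).resolve_right hz
    have h2 : cr e (b t) = ‖b t‖ * cr e (b t / (‖b t‖ : ℂ) - e) := by
      nth_rewrite 1 [eq_norm_smul hz]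
      rw [cr_smul, cr_sub]
      have : cr e e = 0 := by simp only [cr]; ring
      rw [this, sub_zero]
    rw [h2, abs_mul, abs_norm, mul_comm]
    exact mul_le_mul_of_nonneg_right ((abs_cr_le he1 _).trans h1.le) (norm_nonneg _)

/-- Near a zero of `b` the parameter is near. -/
lemma param0 {b : ℝ → ℂ} (hb : Continuous b) (b0 : ∀ s, s ≤ 0 → b s = 0)
    (b1 : ∀ s, 1 ≤ s → b s = b 1) (hne : ∀ t ∈ Ioc (0 : ℝ) 1, b t ≠ 0) (P : ℝ → Prop)
    (hP : ∀ᶠ t in 𝓝[>] (0 : ℝ), P t) :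
    ∃ ρ : ℝ, 0 < ρ ∧ ∀ t, ‖b t‖ < ρ → P t ∨ b t = 0 := by
  obtain ⟨u, hu, hu'⟩ := mem_nhdsGT_iff_exists_Ioo_subset.1 hP
  have hu0 : (0 : ℝ) < u := hu
  have hm : 0 < min u 1 := lt_min hu0 one_pos
  obtain ⟨t0, ht0, hmin⟩ := (isCompact_Icc (a := min u 1) (b := (1 : ℝ))).exists_isMinOn
    ⟨1, ⟨min_le_right _ _, le_rfl⟩⟩ hb.norm.continuousOn
  have hle : ∀ t ∈ Icc (min u 1) 1, ‖b t0‖ ≤ ‖b t‖ := fun t ht => hmin ht
  refine ⟨‖b t0‖, norm_pos_iff.2 (hne t0 ⟨hm.trans_le ht0.1, ht0.2⟩), fun t ht => ?_⟩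
  rcases le_or_gt t 0 with h | h
  · exact Or.inr (b0 t h)
  · rcases le_or_gt 1 t with h' | h'
    · exfalso
      rw [b1 t h'] at ht
      have := hle 1 ⟨min_le_right _ _, le_rfl⟩
      linarith
    · left
      apply hu'
      refine ⟨h, ?_⟩
      by_contra h2
      push Not at h2
      have := hle t ⟨(min_le_left _ _).trans h2, h'.le⟩
      linarith

/-- The theorem for clamped arcs, when `b` is the upper one at the origin. -/
theorem core_low {a b : ℝ → ℂ} {B : ℂ} (ha : Continuous a) (hb : Continuous b)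
    (a0 : ∀ s, s ≤ 0 → a s = 0) (a1 : ∀ s, 1 ≤ s → a s = B)
    (b0 : ∀ s, s ≤ 0 → b s = 0) (b1 : ∀ s, 1 ≤ s → b s = B)
    (ba : ∀ s, 0 ≤ (a s).re ∧ (a s).re ≤ B.re ∧ 0 ≤ (a s).im ∧ (a s).im ≤ B.im)
    (bb : ∀ s, 0 ≤ (b s).re ∧ (b s).re ≤ B.re ∧ 0 ≤ (b s).im ∧ (b s).im ≤ B.im)
    (inj : InjOn a (Icc 0 1)) (injb : InjOn b (Icc 0 1))
    (disj : ∀ s ∈ Ioo (0 : ℝ) 1, ∀ t, a s ≠ b t)
    {e : ℂ} (he : Tendsto (fun t => b t / (‖b t‖ : ℂ)) (𝓝[>] 0) (𝓝 e))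
    (hLA : ∃ ε : ℝ, 0 < ε ∧ ∃ s1 ∈ Ioc (0 : ℝ) 1, ∀ s ∈ Icc 0 s1, cr e (a s) ≤ -(ε * ‖a s‖))
    {f : ℂ} (hf : Tendsto (fun t => (b t - B) / (‖b t - B‖ : ℂ)) (𝓝[<] 1) (𝓝 f))
    (hLB : ∃ ε : ℝ, 0 < ε ∧ ∃ s1 ∈ Ico (0 : ℝ) 1, ∀ s ∈ Icc s1 1,
      ε * ‖a s - B‖ ≤ |cr f (a s - B)|)
    {r : ℝ} (hr : 0 < r) : ∃ s ∈ Icc (0 : ℝ) 1, ∃ s' ∈ Icc (0 : ℝ) 1, s < s' ∧
      a s + rot r (a s' - a s) ∈ range b ∧ a s' + rot r (a s' - a s) ∈ range b := by
  have bne0 : ∀ t ∈ Ioc (0 : ℝ) 1, b t ≠ 0 := by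
    intro t ht h
    have : b t = b 0 := by rw [h, b0 0 le_rfl]
    have := injb ⟨ht.1.le, ht.2⟩ ⟨le_rfl, zero_le_one⟩ this
    linarith [ht.1]
  have bne1 : ∀ t ∈ Ico (0 : ℝ) 1, b t - B ≠ 0 := by
    intro t ht h
    have : b t = b 1 := by rw [b1 1 le_rfl]; exact sub_eq_zero.1 h
    have := injb ⟨ht.1, ht.2.le⟩ ⟨zero_le_one, le_rfl⟩ this
    linarith [ht.2]
  have ev0 : ∀ᶠ t in 𝓝[>] (0 : ℝ), t ∈ Ioc (0 : ℝ) 1 := Ioc_mem_nhdsGT one_pos
  have ev1 : ∀ᶠ t in 𝓝[<] (1 : ℝ), t ∈ Ico (0 : ℝ) 1 := Ico_mem_nhdsLT one_pos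
  have he1 : ‖e‖ = 1 := by
    have h1 := he.norm
    have h2 : Tendsto (fun t => ‖b t / (‖b t‖ : ℂ)‖) (𝓝[>] 0) (𝓝 1) := by
      refine tendsto_const_nhds.congr' ?_
      filter_upwards [ev0] with t ht
      exact (norm_div_norm (bne0 t ht)).symm
    exact tendsto_nhds_unique h1 h2
  have hf1 : ‖f‖ = 1 := by
    have h1 := hf.norm
    have h2 : Tendsto (fun t => ‖(b t - B) / (‖b t - B‖ : ℂ)‖) (𝓝[<] 1) (𝓝 1) := by
      refine tendsto_const_nhds.congr' ?_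
      filter_upwards [ev1] with t ht
      exact (norm_div_norm (bne1 t ht)).symm
    exact tendsto_nhds_unique h1 h2
  have her : 0 ≤ e.re := by
    refine ge_of_tendsto ((Complex.continuous_re.tendsto e).comp he) ?_
    filter_upwards with t
    change 0 ≤ (b t / (‖b t‖ : ℂ)).re
    rw [Complex.div_ofReal_re]
    exact div_nonneg (bb t).1 (norm_nonneg _)
  have hei : 0 ≤ e.im := by
    refine ge_of_tendsto ((Complex.continuous_im.tendsto e).comp he) ?_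
    filter_upwards with t
    change 0 ≤ (b t / (‖b t‖ : ℂ)).im
    rw [Complex.div_ofReal_im]
    exact div_nonneg (bb t).2.2.1 (norm_nonneg _)
  have hfr : f.re ≤ 0 := by
    refine le_of_tendsto ((Complex.continuous_re.tendsto f).comp hf) ?_
    filter_upwards with t
    change ((b t - B) / (‖b t - B‖ : ℂ)).re ≤ 0
    rw [Complex.div_ofReal_re]
    refine div_nonpos_of_nonpos_of_nonneg ?_ (norm_nonneg _)
    rw [Complex.sub_re]; linarith [(bb t).2.1]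
  have hfi : f.im ≤ 0 := by
    refine le_of_tendsto ((Complex.continuous_im.tendsto f).comp hf) ?_
    filter_upwards with t
    change ((b t - B) / (‖b t - B‖ : ℂ)).im ≤ 0
    rw [Complex.div_ofReal_im]
    refine div_nonpos_of_nonpos_of_nonneg ?_ (norm_nonneg _)
    rw [Complex.sub_im]; linarith [(bb t).2.2.2]
  have crn : ∀ z, cr (-f) z = -cr f z := fun z => by
    simp only [cr, Complex.neg_re, Complex.neg_im]; ring
  have TA := thin (l := 𝓝[>] (0 : ℝ)) (e := e)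
    (fun P hP => param0 hb b0 (fun s hs => by rw [b1 s hs, b1 1 le_rfl]) bne0 P hP) he he1
  -- the other end, by reversing the parameter
  have hbr : Continuous fun t => b (1 - t) - B := by fun_prop
  have TB' := thin (b := fun t => b (1 - t) - B) (l := 𝓝[>] (0 : ℝ)) (e := f)
    (fun P hP => param0 hbr (fun s hs => by rw [b1 (1 - s) (by linarith), sub_self])
      (fun s hs => by rw [b0 (1 - s) (by linarith), b0 (1 - 1) (by norm_num)])
      (fun t ht => bne1 (1 - t) ⟨by linarith [ht.2], by linarith [ht.1]⟩) P hP) (by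
      have h1 : Tendsto (fun t : ℝ => 1 - t) (𝓝[>] 0) (𝓝[<] 1) := by
        refine tendsto_nhdsWithin_of_tendsto_nhds_of_eventually_within _ ?_ ?_
        · have : Tendsto (fun t : ℝ => 1 - t) (𝓝 0) (𝓝 (1 - 0)) :=
            (continuous_const.sub continuous_id).tendsto 0
          rw [sub_zero] at this
          exact this.mono_left nhdsWithin_le_nhds
        · filter_upwards [self_mem_nhdsWithin] with t ht
          have : (0 : ℝ) < t := ht
          change 1 - t < 1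
          linarith
      exact hf.comp h1) hf1
  let C : Cfg :=
    { α := a, β := b, B := B, e := e, g := -f, hα := ha, hβ := hb, α0 := a0, α1 := a1
      β0 := b0, β1 := b1, he := he1, he1 := her, he2 := hei
      hg := by rw [norm_neg]; exact hf1
      hg1 := by rw [Complex.neg_re]; linarith
      hg2 := by rw [Complex.neg_im]; linarith
      bα := ba, bβ := bb, inj := inj, disj := disj, TA := TA
      TB := fun c hc => by
        obtain ⟨ρ, hρ, h⟩ := TB' c hc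
        refine ⟨ρ, hρ, fun t ht => ?_⟩
        have := h (1 - t) (by simpa using ht)
        rw [crn, abs_neg]
        simpa using this
      LA := hLA
      LB := by
        obtain ⟨ε, hε, s1, hs1, h⟩ := hLB
        refine ⟨ε, hε, s1, hs1, fun s hs => ?_⟩
        rw [crn, abs_neg]
        exact h s hs }
  obtain ⟨s, hs, s', hs', hss, hw, hq⟩ := C.main hr
  refine ⟨s, hs, s', hs', hss, ?_, ?_⟩
  · have e1 : C.w r s s' = a s + rot r (a s' - a s) := by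
      unfold Cfg.w
      rw [C.L_mid hs, C.L_mid hs']
    rw [← e1]; exact hw
  · have e1 : C.q r s s' = a s' + rot r (a s' - a s) := by
      unfold Cfg.q
      rw [C.L_mid hs, C.L_mid hs']
    rw [← e1]; exact hq

end Pool.MP_7ec17a_gt.T
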