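import Pool.Agent.Work.MP_7ec17a_gt_T.Gates

/-!
# The winding argument
-/

set_option autoImplicit false

open Set Real

namespace Pool.MP_7ec17a_gt.T

namespace Cfg

variable (C : Cfg)

lemma cr_self (v : ℂ) : cr v v = 0 := by simp only [cr]; ring

lemma rot_ne {r : ℝ} (hr : 0 < r) {v : ℂ} (hv : v ≠ 0) : rot r v ≠ 0 := by
  rw [← norm_pos_iff, norm_rot hr.le]
  exact mul_pos hr (norm_pos_iff.2 hv)

lemma dt_comm (v w : ℂ) : dt v w = dt w v := by simp only [dt]; ring

lemma dt_neg (v w : ℂ) : dt (-v) w = -dt v w := by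
  simp only [dt, Complex.neg_re, Complex.neg_im]; ring

lemma dt_neg' (v w : ℂ) : dt v (-w) = -dt v w := by
  simp only [dt, Complex.neg_re, Complex.neg_im]; ring

lemma dt_v_rot (r : ℝ) (v : ℂ) : dt v (rot r v) = 0 := by
  rw [dt_rot, cr_self, mul_zero, neg_zero]

lemma L_ne_left {s s' : ℝ} (hs : s < 0) (hss : s < s') : C.L s' ≠ s • C.e := by
  intro h
  have h1 := congrArg Complex.re h
  have h2 := congrArg Complex.im h
  rw [Complex.smul_re, smul_eq_mul] at h1
  rw [Complex.smul_im, smul_eq_mul] at h2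
  have hep := C.e_pos
  have hneg : s * (C.e.re + C.e.im) < 0 := mul_neg_of_neg_of_pos hs hep
  rcases le_total s' 0 with h0 | h0
  · have e : C.L s' = s' • C.e := C.ext_neg C.α0 h0
    rw [e, Complex.smul_re, smul_eq_mul] at h1
    rw [e, Complex.smul_im, smul_eq_mul] at h2
    have : (s' - s) * (C.e.re + C.e.im) = 0 := by linarith
    rcases mul_eq_zero.1 this with h3 | h3 <;> linarith
  · have hQ : C.L s' ∈ Q0 := by
      rcases le_total s' 1 with h' | h'
      · have e : C.L s' = C.α s' := C.L_mid ⟨h0, h'⟩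
        rw [e]; exact ⟨(C.bα s').1, (C.bα s').2.2.1⟩
      · have e : C.L s' = C.B + (s' - 1) • C.g := C.ext_big C.α1 h'
        rw [e]; exact C.B_g_mem (by linarith)
    have := hQ.1
    have := hQ.2
    linarith

lemma L_ne_right {s s' : ℝ} (hs : 1 < s') (hss : s < s') : C.L s ≠ C.B + (s' - 1) • C.g := by
  intro h
  have h1 := congrArg Complex.re h
  have h2 := congrArg Complex.im h
  rw [Complex.add_re, Complex.smul_re, smul_eq_mul] at h1
  rw [Complex.add_im, Complex.smul_im, smul_eq_mul] at h2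
  have hgp := C.g_pos
  have hpos : 0 < (s' - 1) * (C.g.re + C.g.im) := mul_pos (by linarith) hgp
  rcases le_total 1 s with h0 | h0
  · have e : C.L s = C.B + (s - 1) • C.g := C.ext_big C.α1 h0
    rw [e, Complex.add_re, Complex.smul_re, smul_eq_mul] at h1
    rw [e, Complex.add_im, Complex.smul_im, smul_eq_mul] at h2
    have : (s' - s) * (C.g.re + C.g.im) = 0 := by linarith
    rcases mul_eq_zero.1 this with h3 | h3 <;> linarith
  · have hQ : C.L s ∈ C.Q1 := by
      rcases le_total s 0 with h' | h'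
      · have e : C.L s = s • C.e := C.ext_neg C.α0 h'
        rw [e]; exact C.e_mem h'
      · have e : C.L s = C.α s := C.L_mid ⟨h', h0⟩
        rw [e]; exact ⟨(C.bα s).2.1, (C.bα s).2.2.2⟩
    have := hQ.1
    have := hQ.2
    linarith

/-- If `p` is on the left tail then `w` is not on the extended upper arc. -/
lemma w_not_Uh {r : ℝ} (hr : 0 < r) {s s' : ℝ} (hs : s < 0) (hss : s < s') :
    C.w r s s' ∉ C.Uh := by
  intro hU
  have eL : C.L s = s • C.e := C.ext_neg C.α0 hs.le
  have hne := C.L_ne_left hs hss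
  have hv : C.L s' - C.L s ≠ 0 := by rw [eL]; exact sub_ne_zero.2 hne
  have ew : C.w r s s' - s • C.e = rot r (C.L s' - C.L s) := by
    unfold w; rw [← eL]; ring
  refine C.excl_left hs (C.L_left s') (C.Uh_left hU) hne ?_ ?_
  · intro h
    apply rot_ne hr hv
    rw [← ew, h, sub_self]
  · rw [ew, eL]
    change dt (C.L s' - s • C.e) (rot r (C.L s' - s • C.e)) = 0
    exact dt_v_rot _ _

/-- If `p'` is on the right tail then `q` is not on the extended upper arc. -/
lemma q_not_Uh {r : ℝ} (hr : 0 < r) {s s' : ℝ} (hs : 1 < s') (hss : s < s') :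
    C.q r s s' ∉ C.Uh := by
  intro hU
  have eL : C.L s' = C.B + (s' - 1) • C.g := C.ext_big C.α1 hs.le
  have hne := C.L_ne_right hs hss
  have hv : C.L s' - C.L s ≠ 0 := by rw [eL]; exact sub_ne_zero.2 (Ne.symm hne)
  have eq : C.q r s s' - (C.B + (s' - 1) • C.g) = rot r (C.L s' - C.L s) := by
    unfold q; rw [← eL]; ring
  refine C.excl_right (t := s' - 1) (by linarith) (C.L_right s) (C.Uh_right hU) hne ?_ ?_
  · intro h
    apply rot_ne hr hv
    rw [← eq, h, sub_self]
  · rw [eq, ← eL]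
    change dt (C.L s - C.L s') (rot r (C.L s' - C.L s)) = 0
    have e : C.L s - C.L s' = -(C.L s' - C.L s) := by ring
    rw [e, dt_neg, dt_v_rot, neg_zero]

lemma convex_XA : Convex ℝ {z : ℝ × ℝ | z.1 < 0 ∧ z.1 < z.2} := by
  intro x hx y hy a b ha hb hab
  have h1 := hx.1
  have h2 := hx.2
  have h3 := hy.1
  have h4 := hy.2
  refine ⟨?_, ?_⟩
  · change a * x.1 + b * y.1 < 0
    rcases ha.lt_or_eq with h | h
    · nlinarith
    · subst h
      have : b = 1 := by linarith
      subst this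
      linarith
  · change a * x.1 + b * y.1 < a * x.2 + b * y.2
    rcases ha.lt_or_eq with h | h
    · nlinarith [mul_pos h (sub_pos.2 h2), mul_nonneg hb (sub_pos.2 h4).le]
    · subst h
      have : b = 1 := by linarith
      subst this
      linarith

lemma convex_XB : Convex ℝ {z : ℝ × ℝ | 1 < z.2 ∧ z.1 < z.2} := by
  intro x hx y hy a b ha hb hab
  have h1 := hx.1
  have h2 := hx.2
  have h3 := hy.1
  have h4 := hy.2
  refine ⟨?_, ?_⟩
  · change 1 < a * x.2 + b * y.2
    rcases ha.lt_or_eq with h | h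
    · nlinarith
    · subst h
      have : b = 1 := by linarith
      subst this
      linarith
  · change a * x.1 + b * y.1 < a * x.2 + b * y.2
    rcases ha.lt_or_eq with h | h
    · nlinarith [mul_pos h (sub_pos.2 h2), mul_nonneg hb (sub_pos.2 h4).le]
    · subst h
      have : b = 1 := by linarith
      subst this
      linarith

lemma w_Vp {r : ℝ} (hr : 0 < r) {s s' : ℝ} (hs : s < 0) (hss : s < s') : C.w r s s' ∈ C.Vp := by
  have hep := C.e_pos
  refine C.sub_Vp (S := (fun z : ℝ × ℝ => C.w r z.1 z.2) '' {z : ℝ × ℝ | z.1 < 0 ∧ z.1 < z.2})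
    (convex_XA.isPreconnected.image _ (C.cont_w r).continuousOn) ?_
    (x := C.w r (-1) (-1 / 2)) ⟨(-1, -1 / 2), ⟨by norm_num, by norm_num⟩, rfl⟩
    (C.GAp_Vp ?_) ⟨(s, s'), ⟨hs, hss⟩, rfl⟩
  · rintro _ ⟨z, hz, rfl⟩
    exact C.w_not_Uh hr hz.1 hz.2
  · have e1 : C.L (-1) = (-1 : ℝ) • C.e := C.ext_neg C.α0 (by norm_num)
    have e2 : C.L (-1 / 2) = (-1 / 2 : ℝ) • C.e := C.ext_neg C.α0 (by norm_num)
    have ew : C.w r (-1) (-1 / 2) = (-1 : ℝ) • C.e + rot r ((1 / 2 : ℝ) • C.e) := by
      unfold w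
      rw [e1, e2, ← sub_smul]
      norm_num
    rw [ew]
    have h1 := C.he1
    have h2 := C.he2
    have h3 := C.e_sq
    refine ⟨?_, ?_⟩
    · simp only [Complex.add_re, Complex.smul_re, smul_eq_mul, rot, Complex.smul_im]
      have := mul_nonneg hr.le h2
      rcases h1.lt_or_eq with h | h
      · linarith
      · have h5 : 0 < C.e.im := by linarith
        have := mul_pos hr h5
        linarith
    · rw [cr_add, cr_rot, cr_smul, dt_smul]
      have h5 : cr C.e C.e = 0 := cr_self _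
      have h6 : dt C.e C.e = 1 := by simp only [dt]; linarith
      rw [h5, h6]
      linarith

lemma q_Vp {r : ℝ} (hr : 0 < r) {s s' : ℝ} (hs : 1 < s') (hss : s < s') : C.q r s s' ∈ C.Vp := by
  have hgp := C.g_pos
  refine C.sub_Vp (S := (fun z : ℝ × ℝ => C.q r z.1 z.2) '' {z : ℝ × ℝ | 1 < z.2 ∧ z.1 < z.2})
    (convex_XB.isPreconnected.image _ (C.cont_q r).continuousOn) ?_
    (x := C.q r 2 3) ⟨(2, 3), ⟨by norm_num, by norm_num⟩, rfl⟩
    (C.GBp_Vp ?_) ⟨(s, s'), ⟨hs, hss⟩, rfl⟩
  · rintro _ ⟨z, hz, rfl⟩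
    exact C.q_not_Uh hr hz.1 hz.2
  · have e1 : C.L 2 = C.B + (1 : ℝ) • C.g := by
      have := C.ext_big C.α1 (s := 2) (by norm_num)
      unfold L; rw [this]; norm_num
    have e2 : C.L 3 = C.B + (2 : ℝ) • C.g := by
      have := C.ext_big C.α1 (s := 3) (by norm_num)
      unfold L; rw [this]; norm_num
    have eq : C.q r 2 3 = C.B + ((2 : ℝ) • C.g + rot r C.g) := by
      unfold q
      rw [e1, e2]
      have : C.B + (2 : ℝ) • C.g - (C.B + (1 : ℝ) • C.g) = C.g := by
        rw [add_sub_add_left_eq_sub, ← sub_smul]; norm_num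
      rw [this]; ring
    rw [eq]
    have h1 := C.hg1
    have h2 := C.hg2
    have h3 := C.g_sq
    refine ⟨?_, ?_⟩
    · simp only [Complex.add_im, Complex.smul_im, smul_eq_mul, rot]
      have := mul_nonneg hr.le h1
      rcases h2.lt_or_eq with h | h
      · linarith
      · have h5 : 0 < C.g.re := by linarith
        have := mul_pos hr h5
        linarith
    · rw [add_sub_cancel_left, cr_add, cr_rot, cr_smul]
      have h5 : cr C.g C.g = 0 := cr_self _
      have h6 : dt C.g C.g = 1 := by simp only [dt]; linarith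
      rw [h5, h6]
      linarith

/-- A zero is a rectangle. -/
lemma zero_rect {r : ℝ} (hr : 0 < r) {s s' : ℝ} (hss : s < s') (hw : C.w r s s' ∈ C.Uh)
    (hq : C.q r s s' ∈ C.Uh) : s ∈ Icc (0 : ℝ) 1 ∧ s' ∈ Icc (0 : ℝ) 1 ∧
      C.w r s s' ∈ range C.β ∧ C.q r s s' ∈ range C.β := by
  have hs0 : 0 ≤ s := by
    by_contra h
    push Not at h
    exact C.w_not_Uh hr h hss hw
  have hs1 : s' ≤ 1 := by
    by_contra h
    push Not at h
    exact C.q_not_Uh hr h hss hq
  have hsI : s ∈ Icc (0 : ℝ) 1 := ⟨hs0, hss.le.trans hs1⟩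
  have hsI' : s' ∈ Icc (0 : ℝ) 1 := ⟨hs0.trans hss.le, hs1⟩
  refine ⟨hsI, hsI', ?_⟩
  have es := C.L_mid hsI
  have es' := C.L_mid hsI'
  set v := C.L s' - C.L s with hv
  have hv0 : v ≠ 0 := by
    rw [hv, es, es']
    intro h
    have := C.inj hsI' hsI (sub_eq_zero.1 h)
    linarith
  have hrot := rot_ne hr hv0
  have ew : C.w r s s' = C.L s + rot r v := rfl
  have eq : C.q r s s' = C.L s' + rot r v := rfl
  -- general statement: a vertex `τ` in `Uh` with two neighbours `x`, `y`
  have key : ∀ τ x y : ℂ, τ ∈ C.Uh → (x ∈ C.S0 ∨ x ∈ Q0) → (x ∈ C.S1 ∨ x ∈ C.Q1) →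
      y ∈ C.Uh → x ≠ τ → y ≠ τ → dt (x - τ) (y - τ) = 0 → τ ∈ range C.β := by
    intro τ x y hτ hx1 hx2 hy hxτ hyτ hperp
    rcases hτ with (h | h) | h
    · exact h
    · have e := C.S0_eq h
      have ht : dt C.e τ ≤ 0 := h.2
      rcases ht.lt_or_eq with h' | h'
      · exfalso
        apply C.excl_left h' hx1 (C.Uh_left hy)
        · rw [← e]; exact hxτ
        · rw [← e]; exact hyτ
        · rw [← e]; exact hperp
      · rw [h', zero_smul] at e
        exact ⟨0, by rw [C.β0 0 le_rfl, e]⟩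
    · have e := C.S1_eq h
      have ht : 0 ≤ dt C.g (τ - C.B) := h.2
      rcases ht.lt_or_eq with h' | h'
      · exfalso
        apply C.excl_right h' hx2 (C.Uh_right hy)
        · rw [← e]; exact hxτ
        · rw [← e]; exact hyτ
        · rw [← e]; exact hperp
      · rw [← h', zero_smul, add_zero] at e
        exact ⟨1, by rw [C.β1 1 le_rfl, e]⟩
  constructor
  · apply key _ (C.L s) (C.q r s s') hw (C.L_left s) (C.L_right s) hq
    · rw [ew]; intro h
      apply hrot
      have : C.L s + rot r v = C.L s + 0 := by rw [add_zero]; exact h.symm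
      exact add_left_cancel this
    · rw [ew, eq]; intro h
      apply hv0
      rw [hv, add_right_cancel h, sub_self]
    · have e1 : C.L s - C.w r s s' = -rot r v := by rw [ew]; ring
      have e2 : C.q r s s' - C.w r s s' = v := by rw [ew, eq, hv]; ring
      rw [e1, e2, dt_neg, dt_comm, dt_v_rot, neg_zero]
  · apply key _ (C.L s') (C.w r s s') hq (C.L_left s') (C.L_right s') hw
    · rw [eq]; intro h
      apply hrot
      have : C.L s' + rot r v = C.L s' + 0 := by rw [add_zero]; exact h.symm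
      exact add_left_cancel this
    · rw [ew, eq]; intro h
      apply hv0
      rw [hv, add_right_cancel h, sub_self]
    · have e1 : C.L s' - C.q r s s' = -rot r v := by rw [eq]; ring
      have e2 : C.w r s s' - C.q r s s' = -v := by rw [ew, eq, hv]; ring
      rw [e1, e2, dt_neg, dt_neg', dt_comm, dt_v_rot, neg_zero, neg_zero]

/-- Near the diagonal both sides are negative. -/
lemma near_diag (r : ℝ) {a b : ℝ} (ha : 0 < a) (hb : b < 1) : ∃ δ : ℝ, 0 < δ ∧
    ∀ s ∈ Icc a b, ∀ s', |s' - s| ≤ δ → C.side (C.w r s s') < 0 ∧ C.side (C.q r s s') < 0 := by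
  have hc1 : Continuous fun z : ℝ × ℝ => C.side (C.w r z.1 z.2) :=
    C.continuous_side.comp (C.cont_w r)
  have hc2 : Continuous fun z : ℝ × ℝ => C.side (C.q r z.1 z.2) :=
    C.continuous_side.comp (C.cont_q r)
  set O : Set (ℝ × ℝ) := {z | C.side (C.w r z.1 z.2) < 0} ∩ {z | C.side (C.q r z.1 z.2) < 0}
    with hO
  have hOo : IsOpen O := (isOpen_lt hc1 continuous_const).inter (isOpen_lt hc2 continuous_const)
  have hK : IsCompact ((fun s : ℝ => (s, s)) '' Icc a b) :=
    isCompact_Icc.image (by fun_prop)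
  have hKO : (fun s : ℝ => (s, s)) '' Icc a b ⊆ O := by
    rintro _ ⟨s, hs, rfl⟩
    have hsI : s ∈ Ioo (0 : ℝ) 1 := ⟨ha.trans_le hs.1, hs.2.trans_lt hb⟩
    have eL := C.L_mid ⟨hsI.1.le, hsI.2.le⟩
    have hrot0 : rot r (C.L s - C.L s) = 0 := by
      rw [sub_self]
      apply Complex.ext <;> simp [rot]
    have hneg := C.side_neg (C.α_not_Uh hsI) (C.α_not_Vp hsI)
    refine ⟨?_, ?_⟩
    · change C.side (C.L s + rot r (C.L s - C.L s)) < 0
      rw [hrot0, add_zero, eL]; exact hneg
    · change C.side (C.L s + rot r (C.L s - C.L s)) < 0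
      rw [hrot0, add_zero, eL]; exact hneg
  obtain ⟨δ, hδ, hsub⟩ := hK.exists_thickening_subset_open hOo hKO
  refine ⟨δ / 2, by positivity, fun s hs s' hs' => ?_⟩
  have hmem : ((s, s') : ℝ × ℝ) ∈ Metric.thickening δ ((fun s : ℝ => (s, s)) '' Icc a b) := by
    rw [Metric.mem_thickening_iff]
    refine ⟨(s, s), mem_image_of_mem _ hs, ?_⟩
    rw [Prod.dist_eq, dist_self, max_eq_right dist_nonneg, Real.dist_eq]
    exact lt_of_le_of_lt hs' (half_lt_self hδ)
  exact hsub hmem

/-- The main theorem for a configuration. -/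
theorem main {r : ℝ} (hr : 0 < r) : ∃ s ∈ Icc (0 : ℝ) 1, ∃ s' ∈ Icc (0 : ℝ) 1, s < s' ∧
    C.w r s s' ∈ range C.β ∧ C.q r s s' ∈ range C.β := by
  by_contra hno
  have hpi := Real.pi_pos
  set X : Set (ℝ × ℝ) := {z | z.1 < z.2} with hX
  have hXc : Convex ℝ X := by
    intro x hx y hy a b ha hb hab
    have h2 : x.1 < x.2 := hx
    have h4 : y.1 < y.2 := hy
    change a * x.1 + b * y.1 < a * x.2 + b * y.2
    rcases ha.lt_or_eq with h | h
    · nlinarith [mul_pos h (sub_pos.2 h2), mul_nonneg hb (sub_pos.2 h4).le]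
    · subst h
      have : b = 1 := by linarith
      subst this
      linarith
  have hXo : IsOpen X := isOpen_lt continuous_fst continuous_snd
  set F : ℝ × ℝ → ℂ := fun z => (C.side (C.w r z.1 z.2) : ℂ) + C.side (C.q r z.1 z.2) * Complex.I
    with hF
  have hc1 : Continuous fun z : ℝ × ℝ => C.side (C.w r z.1 z.2) :=
    C.continuous_side.comp (C.cont_w r)
  have hc2 : Continuous fun z : ℝ × ℝ => C.side (C.q r z.1 z.2) :=
    C.continuous_side.comp (C.cont_q r)
  have hFc : Continuous F := by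
    simp only [hF]
    exact (Complex.continuous_ofReal.comp hc1).add
      ((Complex.continuous_ofReal.comp hc2).mul continuous_const)
  have Fre : ∀ z, (F z).re = C.side (C.w r z.1 z.2) := fun z => by simp [hF]
  have Fim : ∀ z, (F z).im = C.side (C.q r z.1 z.2) := fun z => by simp [hF]
  have hF0 : ∀ z ∈ X, F z ≠ 0 := by
    intro z hz h0
    have h1 : C.side (C.w r z.1 z.2) = 0 := by rw [← Fre, h0]; rfl
    have h2 : C.side (C.q r z.1 z.2) = 0 := by rw [← Fim, h0]; rfl
    obtain ⟨a1, a2, a3, a4⟩ := C.zero_rect hr hz (C.side_zero.1 h1) (C.side_zero.1 h2)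
    exact hno ⟨z.1, a1, z.2, a2, hz, a3, a4⟩
  obtain ⟨θ', hθ'c, hθ'⟩ := exists_arg hXc hXo ⟨(-1, 2), by simp [hX]; norm_num⟩
    hFc.continuousOn hF0
  have npos : ∀ z ∈ X, 0 < ‖F z‖ := fun z hz => norm_pos_iff.2 (hF0 z hz)
  have hP0 : ((-1, 2) : ℝ × ℝ) ∈ X := by
    change (-1 : ℝ) < 2
    norm_num
  obtain ⟨n, hn0, hn1⟩ : ∃ n : ℤ, 0 < θ' (-1, 2) - n * (2 * π) ∧
      θ' (-1, 2) - n * (2 * π) < π / 2 := by
    apply norm_angle
    · have h := (hθ' _ hP0).2
      rw [Fim] at h
      have h1 : 0 < C.side (C.q r (-1) 2) := C.side_pos (C.q_Vp hr (by norm_num) (by norm_num))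
      change C.side (C.q r (-1) 2) = _ at h
      rw [h] at h1
      exact (pos_iff_pos_of_mul_pos h1).1 (npos _ hP0)
    · have h := (hθ' _ hP0).1
      rw [Fre] at h
      have h1 : 0 < C.side (C.w r (-1) 2) := C.side_pos (C.w_Vp hr (by norm_num) (by norm_num))
      change C.side (C.w r (-1) 2) = _ at h
      rw [h] at h1
      exact (pos_iff_pos_of_mul_pos h1).1 (npos _ hP0)
  set θ : ℝ × ℝ → ℝ := fun z => θ' z - n * (2 * π) with hθ
  have hθc : ContinuousOn θ X := hθ'c.sub continuousOn_const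
  have Hw : ∀ z ∈ X, C.side (C.w r z.1 z.2) = ‖F z‖ * cos (θ z) := fun z hz => by
    rw [← Fre, (hθ' z hz).1, hθ]; simp only; rw [Real.cos_sub_int_mul_two_pi]
  have Hq : ∀ z ∈ X, C.side (C.q r z.1 z.2) = ‖F z‖ * sin (θ z) := fun z hz => by
    rw [← Fim, (hθ' z hz).2, hθ]; simp only; rw [Real.sin_sub_int_mul_two_pi]
  have base : 0 < θ (-1, 2) ∧ θ (-1, 2) < π / 2 := ⟨hn0, hn1⟩
  have cosPos : ∀ z ∈ X, 0 < C.side (C.w r z.1 z.2) → 0 < cos (θ z) := fun z hz h => by
    rw [Hw z hz] at h; exact (pos_iff_pos_of_mul_pos h).1 (npos z hz)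
  have sinPos : ∀ z ∈ X, 0 < C.side (C.q r z.1 z.2) → 0 < sin (θ z) := fun z hz h => by
    rw [Hq z hz] at h; exact (pos_iff_pos_of_mul_pos h).1 (npos z hz)
  have cosNeg : ∀ z ∈ X, C.side (C.w r z.1 z.2) < 0 → cos (θ z) < 0 := fun z hz h => by
    rw [Hw z hz] at h
    by_contra h'
    push Not at h'
    have := mul_nonneg (npos z hz).le h'
    linarith
  have sinNeg : ∀ z ∈ X, C.side (C.q r z.1 z.2) < 0 → sin (θ z) < 0 := fun z hz h => by
    rw [Hq z hz] at h
    by_contra h'
    push Not at h'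
    have := mul_nonneg (npos z hz).le h'
    linarith
  -- region A
  have rA : ∀ s s', s < 0 → s < s' → -(π / 2) < θ (s, s') ∧ θ (s, s') < π / 2 := by
    have := stay (S := {z : ℝ × ℝ | z.1 < 0 ∧ z.1 < z.2}) convex_XA.isPreconnected
      (hθc.mono fun z hz => hz.2) (lo := -(π / 2)) (hi := π / 2) ?_ (z0 := (-1, 2))
      ⟨by norm_num, by norm_num⟩ ⟨by linarith [base.1], base.2⟩
    · intro s s' h1 h2
      exact this (s, s') ⟨h1, h2⟩
    · intro z hz
      have h := cosPos z hz.2 (C.side_pos (C.w_Vp hr hz.1 hz.2))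
      constructor
      · intro h'; rw [h', Real.cos_neg, Real.cos_pi_div_two] at h; exact lt_irrefl _ h
      · intro h'; rw [h', Real.cos_pi_div_two] at h; exact lt_irrefl _ h
  -- region B
  have rB : ∀ s s', 1 < s' → s < s' → 0 < θ (s, s') ∧ θ (s, s') < π := by
    have := stay (S := {z : ℝ × ℝ | 1 < z.2 ∧ z.1 < z.2}) convex_XB.isPreconnected
      (hθc.mono fun z hz => hz.2) (lo := 0) (hi := π) ?_ (z0 := (-1, 2))
      ⟨by norm_num, by norm_num⟩ ⟨base.1, by linarith [base.2]⟩
    · intro s s' h1 h2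
      exact this (s, s') ⟨h1, h2⟩
    · intro z hz
      have h := sinPos z hz.2 (C.side_pos (C.q_Vp hr hz.1 hz.2))
      constructor
      · intro h'; rw [h', Real.sin_zero] at h; exact lt_irrefl _ h
      · intro h'; rw [h', Real.sin_pi] at h; exact lt_irrefl _ h
  -- gate A
  obtain ⟨σA, hσA, gA⟩ := C.gateA hr
  have rgA : ∀ s, -1 ≤ s → s < σA → -(5 * π / 4) < θ (s, σA) ∧ θ (s, σA) < 3 * π / 4 := by
    have hsub : Ico (-1) σA ×ˢ ({σA} : Set ℝ) ⊆ X := by
      rintro ⟨s, t⟩ ⟨hs, ht⟩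
      have ht' : t = σA := ht
      subst ht'
      exact hs.2
    have := stay (S := Ico (-1 : ℝ) σA ×ˢ ({σA} : Set ℝ))
      ((convex_Ico _ _).prod (convex_singleton _)).isPreconnected (hθc.mono hsub)
      (lo := -(5 * π / 4)) (hi := 3 * π / 4) ?_ (z0 := (-1, σA))
      ⟨⟨le_rfl, by linarith [hσA.1]⟩, rfl⟩ ?_
    · intro s h1 h2
      exact this (s, σA) ⟨⟨h1, h2⟩, rfl⟩
    · rintro ⟨s, t⟩ ⟨hs, ht⟩
      have ht' : t = σA := ht
      subst ht'
      have hzX : ((s, t) : ℝ × ℝ) ∈ X := hs.2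
      -- both excluded angles have negative cosine and positive sine
      have hbad : ¬(cos (θ (s, t)) < 0 ∧ 0 < sin (θ (s, t))) := by
        rintro ⟨h1, h2⟩
        have h3 : C.side (C.w r s t) < 0 := by
          have := Hw _ hzX
          change C.side (C.w r s t) = _ at this
          rw [this]; exact mul_neg_of_pos_of_neg (npos _ hzX) h1
        have h4 : 0 < C.side (C.q r s t) := by
          have := Hq _ hzX
          change C.side (C.q r s t) = _ at this
          rw [this]; exact mul_pos (npos _ hzX) h2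
        rcases lt_or_ge s 0 with h0 | h0
        · exact C.not_mem_of_side_neg h3 (C.w_Vp hr h0 hs.2)
        · exact gA s ⟨h0, hs.2⟩ ⟨h3, h4⟩
      have c34 : cos (3 * π / 4) < 0 := by
        apply Real.cos_neg_of_pi_div_two_lt_of_lt <;> linarith
      have s34 : 0 < sin (3 * π / 4) := by
        apply Real.sin_pos_of_pos_of_lt_pi <;> linarith
      constructor
      · intro h
        apply hbad
        have e : θ (s, t) = 3 * π / 4 - 2 * π := by rw [h]; ring
        rw [e, Real.cos_sub_two_pi, Real.sin_sub_two_pi]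
        exact ⟨c34, s34⟩
      · intro h
        apply hbad
        rw [h]
        exact ⟨c34, s34⟩
    · have := rA (-1) σA (by norm_num) (by linarith [hσA.1])
      constructor <;> linarith [this.1, this.2]
  -- gate B
  obtain ⟨σB, hσB, gB⟩ := C.gateB hr
  have rgB : ∀ s, σB < s → s ≤ 2 → -(π / 4) < θ (σB, s) ∧ θ (σB, s) < 7 * π / 4 := by
    have hsub : ({σB} : Set ℝ) ×ˢ Ioc σB 2 ⊆ X := by
      rintro ⟨t, s⟩ ⟨ht, hs⟩
      have ht' : t = σB := ht
      subst ht'
      exact hs.1
    have := stay (S := ({σB} : Set ℝ) ×ˢ Ioc σB 2)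
      ((convex_singleton _).prod (convex_Ioc _ _)).isPreconnected (hθc.mono hsub)
      (lo := -(π / 4)) (hi := 7 * π / 4) ?_ (z0 := (σB, 2))
      ⟨rfl, ⟨by linarith [hσB.2], le_rfl⟩⟩ ?_
    · intro s h1 h2
      exact this (σB, s) ⟨rfl, ⟨h1, h2⟩⟩
    · rintro ⟨t, s⟩ ⟨ht, hs⟩
      have ht' : t = σB := ht
      subst ht'
      have hzX : ((t, s) : ℝ × ℝ) ∈ X := hs.1
      have hbad : ¬(0 < cos (θ (t, s)) ∧ sin (θ (t, s)) < 0) := by
        rintro ⟨h1, h2⟩
        have h3 : 0 < C.side (C.w r t s) := by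
          have := Hw _ hzX
          change C.side (C.w r t s) = _ at this
          rw [this]; exact mul_pos (npos _ hzX) h1
        have h4 : C.side (C.q r t s) < 0 := by
          have := Hq _ hzX
          change C.side (C.q r t s) = _ at this
          rw [this]; exact mul_neg_of_pos_of_neg (npos _ hzX) h2
        rcases lt_or_ge 1 s with h0 | h0
        · exact C.not_mem_of_side_neg h4 (C.q_Vp hr h0 hs.1)
        · exact gB s ⟨hs.1, h0⟩ ⟨h3, h4⟩
      have c14 : 0 < cos (-(π / 4)) := by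
        rw [Real.cos_neg]
        apply Real.cos_pos_of_mem_Ioo
        constructor <;> linarith
      have s14 : sin (-(π / 4)) < 0 := by
        apply Real.sin_neg_of_neg_of_neg_pi_lt <;> linarith
      constructor
      · intro h
        apply hbad
        rw [h]
        exact ⟨c14, s14⟩
      · intro h
        apply hbad
        have e : θ (t, s) = -(π / 4) + 2 * π := by rw [h]; ring
        rw [e, Real.cos_add_two_pi, Real.sin_add_two_pi]
        exact ⟨c14, s14⟩
    · have := rB σB 2 (by norm_num) (by linarith [hσB.2])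
      constructor <;> linarith [this.1, this.2]
  -- near the diagonal
  set a : ℝ := min σA σB / 2 with ha
  set b : ℝ := max σA σB with hb
  have ha0 : 0 < a := by
    have : 0 < min σA σB := lt_min hσA.1 hσB.1
    positivity
  have hb1 : b < 1 := max_lt hσA.2 hσB.2
  obtain ⟨δ, hδ, hdiag⟩ := C.near_diag r ha0 hb1
  set δ' : ℝ := min δ (min (σA / 2) 1) with hδ'
  have hδ'0 : 0 < δ' := lt_min hδ (lt_min (by linarith [hσA.1]) one_pos)
  have hδ'1 : δ' ≤ δ := min_le_left _ _
  have hδ'2 : δ' ≤ σA / 2 := (min_le_right _ _).trans (min_le_left _ _)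
  have hδ'3 : δ' ≤ 1 := (min_le_right _ _).trans (min_le_right _ _)
  have aA : a ≤ σA / 2 := by
    have := min_le_left σA σB
    rw [ha]; linarith
  have aB : a ≤ σB := by
    have := min_le_right σA σB
    rw [ha]; linarith [hσB.1]
  have bA : σA ≤ b := le_max_left _ _
  have bB : σB ≤ b := le_max_right _ _
  set D : Set (ℝ × ℝ) := {z | z.1 ∈ Icc a b ∧ z.1 < z.2 ∧ z.2 ≤ z.1 + δ} with hD
  have hDc : Convex ℝ D := by
    intro x hx y hy p q hp hq hpq
    obtain ⟨⟨x1, x2⟩, x3, x4⟩ := hx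
    obtain ⟨⟨y1, y2⟩, y3, y4⟩ := hy
    have ea : a = p * a + q * a := by rw [← add_mul, hpq, one_mul]
    have eb : b = p * b + q * b := by rw [← add_mul, hpq, one_mul]
    have ed : δ = p * δ + q * δ := by rw [← add_mul, hpq, one_mul]
    refine ⟨⟨?_, ?_⟩, ?_, ?_⟩
    · change a ≤ p * x.1 + q * y.1
      have := mul_le_mul_of_nonneg_left x1 hp
      have := mul_le_mul_of_nonneg_left y1 hq
      linarith
    · change p * x.1 + q * y.1 ≤ b
      have := mul_le_mul_of_nonneg_left x2 hp
      have := mul_le_mul_of_nonneg_left y2 hq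
      linarith
    · change p * x.1 + q * y.1 < p * x.2 + q * y.2
      rcases hp.lt_or_eq with h | h
      · nlinarith [mul_pos h (sub_pos.2 x3), mul_nonneg hq (sub_pos.2 y3).le]
      · subst h
        have : q = 1 := by linarith
        subst this
        linarith
    · change p * x.2 + q * y.2 ≤ p * x.1 + q * y.1 + δ
      have := mul_le_mul_of_nonneg_left x4 hp
      have := mul_le_mul_of_nonneg_left y4 hq
      linarith
  have hDX : D ⊆ X := fun z hz => hz.2.1
  have hDneg : ∀ z ∈ D, C.side (C.w r z.1 z.2) < 0 ∧ C.side (C.q r z.1 z.2) < 0 := by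
    intro z hz
    apply hdiag z.1 hz.1
    rw [abs_of_pos (sub_pos.2 hz.2.1)]
    linarith [hz.2.2]
  have PA : ((σA - δ', σA) : ℝ × ℝ) ∈ D := by
    refine ⟨⟨?_, ?_⟩, ?_, ?_⟩
    · change a ≤ σA - δ'; linarith
    · change σA - δ' ≤ b; linarith
    · change σA - δ' < σA; linarith
    · change σA ≤ σA - δ' + δ; linarith
  have PB : ((σB, σB + δ') : ℝ × ℝ) ∈ D := by
    refine ⟨⟨aB, bB⟩, ?_, ?_⟩
    · change σB < σB + δ'; linarith
    · change σB + δ' ≤ σB + δ; linarith
  have tA := rgA (σA - δ') (by linarith [hσA.1]) (by linarith)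
  have tB := rgB (σB + δ') (by linarith) (by linarith [hσB.2])
  -- angle at PA
  have nA := hDneg _ PA
  have cA := cosNeg _ (hDX PA) nA.1
  have sA := sinNeg _ (hDX PA) nA.2
  have iA : -π < θ (σA - δ', σA) ∧ θ (σA - δ', σA) < 0 := by
    constructor
    · by_contra h
      push Not at h
      have e : sin (θ (σA - δ', σA)) = sin (θ (σA - δ', σA) + 2 * π) := by
        rw [Real.sin_add_two_pi]
      have := Real.sin_nonneg_of_nonneg_of_le_pi (x := θ (σA - δ', σA) + 2 * π)
        (by linarith [tA.1]) (by linarith)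
      linarith
    · by_contra h
      push Not at h
      have := Real.sin_nonneg_of_nonneg_of_le_pi h (by linarith [tA.2])
      linarith
  have all := stay (S := D) hDc.isPreconnected (hθc.mono hDX) (lo := -π) (hi := 0)
    (fun z hz => ⟨fun h => by
      have := sinNeg z (hDX hz) (hDneg z hz).2
      rw [h, Real.sin_neg, Real.sin_pi, neg_zero] at this
      exact lt_irrefl _ this, fun h => by
      have := sinNeg z (hDX hz) (hDneg z hz).2
      rw [h, Real.sin_zero] at this
      exact lt_irrefl _ this⟩) PA iA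
  have fB := all _ PB
  -- angle at PB
  have nB := hDneg _ PB
  have cB := cosNeg _ (hDX PB) nB.1
  have := Real.cos_nonneg_of_neg_pi_div_two_le_of_le (x := θ (σB, σB + δ')) (by linarith [tB.1])
    (by linarith [fB.2])
  linarith

end Cfg

end Pool.MP_7ec17a_gt.T
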