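import Pool.Agent.Work.MP_7ec17a_gt_T.Cross

/-!
# The two sides of the extended upper arc
-/

set_option autoImplicit false

open Set

namespace Pool.MP_7ec17a_gt.T

namespace Cfg

variable (C : Cfg)

lemma sub_Vp {S : Set ℂ} (hS : IsPreconnected S) (hSU : S ⊆ C.Uhᶜ) {x : ℂ} (hx : x ∈ S)
    (hxV : x ∈ C.Vp) : S ⊆ C.Vp := by
  have h := hS.subset_connectedComponentIn hx hSU
  have e : connectedComponentIn C.Uhᶜ x = C.Vp := (connectedComponentIn_eq hxV).symm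
  rw [e] at h
  exact h

lemma not_Vp {S : Set ℂ} (hS : IsPreconnected S) (hSU : S ⊆ C.Uhᶜ) {x : ℂ} (hx : x ∈ S)
    (hxV : x ∉ C.Vp) {y : ℂ} (hy : y ∈ S) : y ∉ C.Vp := fun h =>
  hxV (C.sub_Vp hS hSU hy h hx)

lemma GAp_Vp : C.GAp ⊆ C.Vp :=
  C.sub_Vp C.convex_GAp.isPreconnected C.GAp_sub C.zp_mem C.zp_mem_Vp

lemma GBp_Vp : C.GBp ⊆ C.Vp := by
  have h1 := C.B_re
  have h2 := C.B_im
  have h3 := C.e_pos
  have h4 := C.g_pos
  have h5 := mul_nonneg C.he1 h2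
  have h6 := mul_nonneg C.hg2 h1
  refine C.sub_Vp C.convex_GBp.isPreconnected C.GBp_sub (x := ⟨-1, C.B.im + 1⟩) ?_
    (C.GAp_Vp ?_)
  · refine ⟨?_, ?_⟩
    · simp
    · simp only [cr, Complex.sub_re, Complex.sub_im]
      nlinarith
  · refine ⟨?_, ?_⟩
    · simp
    · simp only [cr]
      nlinarith

lemma GAm_Vp {z : ℂ} (hz : z ∈ C.GAm) : z ∉ C.Vp :=
  C.not_Vp C.convex_GAm.isPreconnected C.GAm_sub C.zm_mem C.zm_not_mem hz

lemma GBm_Vp {z : ℂ} (hz : z ∈ C.GBm) : z ∉ C.Vp := by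
  have h1 := C.B_re
  have h2 := C.B_im
  have h3 := C.e_pos
  have h4 := C.g_pos
  have h5 := mul_nonneg C.he2 h1
  have h6 := mul_nonneg C.hg1 h2
  refine C.not_Vp C.convex_GBm.isPreconnected C.GBm_sub (x := ⟨C.B.re + 1, -1⟩) ?_
    (C.GAm_Vp ?_) hz
  · refine ⟨?_, ?_⟩
    · simp
    · simp only [cr, Complex.sub_re, Complex.sub_im]
      nlinarith
  · refine ⟨?_, ?_⟩
    · simp
    · simp only [cr]
      nlinarith

lemma norm_S1 {z : ℂ} (hz : z ∈ C.S1) : ‖C.B‖ ≤ ‖z‖ := by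
  have e := C.S1_eq hz
  set t := dt C.g (z - C.B) with ht
  have ht0 : 0 ≤ t := hz.2
  apply abs_le_of_sq_le_sq' _ (norm_nonneg _) |>.2
  rw [e, ← Complex.normSq_eq_norm_sq, ← Complex.normSq_eq_norm_sq, Complex.normSq_apply,
    Complex.normSq_apply]
  simp only [Complex.add_re, Complex.add_im, Complex.smul_re, Complex.smul_im, smul_eq_mul]
  have h1 := mul_nonneg C.B_re (mul_nonneg ht0 C.hg1)
  have h2 := mul_nonneg C.B_im (mul_nonneg ht0 C.hg2)
  nlinarith [sq_nonneg (t * C.g.re), sq_nonneg (t * C.g.im)]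

lemma norm_S0 {z : ℂ} (hz : z ∈ C.S0) : ‖C.B‖ ≤ ‖z - C.B‖ := by
  have e := C.S0_eq hz
  set t := dt C.e z with ht
  have ht0 : t ≤ 0 := hz.2
  apply abs_le_of_sq_le_sq' _ (norm_nonneg _) |>.2
  rw [e, ← Complex.normSq_eq_norm_sq, ← Complex.normSq_eq_norm_sq, Complex.normSq_apply,
    Complex.normSq_apply]
  simp only [Complex.sub_re, Complex.sub_im, Complex.smul_re, Complex.smul_im, smul_eq_mul]
  have h1 := mul_nonneg C.B_re (mul_nonneg (neg_nonneg.2 ht0) C.he1)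
  have h2 := mul_nonneg C.B_im (mul_nonneg (neg_nonneg.2 ht0) C.he2)
  nlinarith [sq_nonneg (t * C.e.re), sq_nonneg (t * C.e.im)]

/-- Upper cone at a point `P` in direction `d`. -/
def cone (P d : ℂ) (ρ c : ℝ) : Set ℂ := {z | ‖z - P‖ < ρ ∧ c * ‖z - P‖ < cr d (z - P)}

/-- Lower cone. -/
def coneM (P d : ℂ) (ρ c : ℝ) : Set ℂ := {z | ‖z - P‖ < ρ ∧ cr d (z - P) < -(c * ‖z - P‖)}

lemma convex_cone (P d : ℂ) (ρ : ℝ) {c : ℝ} (hc : 0 ≤ c) : Convex ℝ (cone P d ρ c) := by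
  intro x hx y hy a b ha hb hab
  have h1 : ‖a • x + b • y - P‖ ≤ a * ‖x - P‖ + b * ‖y - P‖ := by
    rw [sub_comb hab]
    refine (norm_add_le _ _).trans ?_
    rw [norm_smul, norm_smul, Real.norm_eq_abs, Real.norm_eq_abs, abs_of_nonneg ha,
      abs_of_nonneg hb]
  refine ⟨lt_of_le_of_lt h1 ?_, ?_⟩
  · have hx1 := hx.1
    have hy1 := hy.1
    rcases ha.lt_or_eq with h | h
    · have e : ρ = a * ρ + b * ρ := by rw [← add_mul, hab, one_mul]
      have := mul_lt_mul_of_pos_left hx1 h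
      have := mul_le_mul_of_nonneg_left hy1.le hb
      linarith
    · subst h
      have : b = 1 := by linarith
      subst this
      linarith
  · have hx2 := hx.2
    have hy2 := hy.2
    have h2 := mul_le_mul_of_nonneg_left h1 hc
    rw [sub_comb hab, cr_add, cr_smul, cr_smul, ← sub_comb hab]
    refine lt_of_le_of_lt h2 ?_
    rcases ha.lt_or_eq with h | h
    · have := mul_lt_mul_of_pos_left hx2 h
      have := mul_le_mul_of_nonneg_left hy2.le hb
      linarith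
    · subst h
      have : b = 1 := by linarith
      subst this
      linarith

lemma convex_coneM (P d : ℂ) (ρ : ℝ) {c : ℝ} (hc : 0 ≤ c) : Convex ℝ (coneM P d ρ c) := by
  intro x hx y hy a b ha hb hab
  have h1 : ‖a • x + b • y - P‖ ≤ a * ‖x - P‖ + b * ‖y - P‖ := by
    rw [sub_comb hab]
    refine (norm_add_le _ _).trans ?_
    rw [norm_smul, norm_smul, Real.norm_eq_abs, Real.norm_eq_abs, abs_of_nonneg ha,
      abs_of_nonneg hb]
  refine ⟨lt_of_le_of_lt h1 ?_, ?_⟩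
  · have hx1 := hx.1
    have hy1 := hy.1
    rcases ha.lt_or_eq with h | h
    · have e : ρ = a * ρ + b * ρ := by rw [← add_mul, hab, one_mul]
      have := mul_lt_mul_of_pos_left hx1 h
      have := mul_le_mul_of_nonneg_left hy1.le hb
      linarith
    · subst h
      have : b = 1 := by linarith
      subst this
      linarith
  · have hx2 := hx.2
    have hy2 := hy.2
    have h2 := mul_le_mul_of_nonneg_left h1 hc
    rw [sub_comb hab, cr_add, cr_smul, cr_smul, ← sub_comb hab]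
    refine lt_of_lt_of_le ?_ (neg_le_neg h2)
    rcases ha.lt_or_eq with h | h
    · have := mul_lt_mul_of_pos_left hx2 h
      have := mul_le_mul_of_nonneg_left hy2.le hb
      linarith
    · subst h
      have : b = 1 := by linarith
      subst this
      linarith

lemma norm_zp : ‖C.zp‖ < 2 := by
  have h := sq_add_sq C.he C.zp
  rw [C.cr_zp, C.dt_zp] at h
  nlinarith [norm_nonneg C.zp]

lemma norm_zm : ‖C.zm‖ < 2 := by
  have h := sq_add_sq C.he C.zm
  rw [C.cr_zm, C.dt_zm] at h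
  nlinarith [norm_nonneg C.zm]

lemma coneA_sub {ρ c : ℝ} (hc : 0 < c) (hρB : ρ ≤ ‖C.B‖)
    (hρ : ∀ t, ‖C.β t‖ < ρ → |cr C.e (C.β t)| ≤ c * ‖C.β t‖) {z : ℂ} (hz : ‖z‖ < ρ)
    (hz' : c * ‖z‖ < |cr C.e z|) : z ∉ C.Uh := by
  rintro ((⟨t, rfl⟩ | h) | h)
  · have := hρ t hz
    linarith
  · rw [h.1, abs_zero] at hz'
    have := norm_nonneg z
    nlinarith
  · have := C.norm_S1 h
    linarith

lemma coneB_sub {ρ c : ℝ} (hc : 0 < c) (hρB : ρ ≤ ‖C.B‖)
    (hρ : ∀ t, ‖C.β t - C.B‖ < ρ → |cr C.g (C.β t - C.B)| ≤ c * ‖C.β t - C.B‖) {z : ℂ}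
    (hz : ‖z - C.B‖ < ρ) (hz' : c * ‖z - C.B‖ < |cr C.g (z - C.B)|) : z ∉ C.Uh := by
  rintro ((⟨t, rfl⟩ | h) | h)
  · have := hρ t hz
    linarith
  · have := C.norm_S0 h
    linarith
  · rw [h.1, abs_zero] at hz'
    have := norm_nonneg (z - C.B)
    nlinarith

/-- The upper cone at `0` is above. -/
lemma coneA_Vp {ρ c : ℝ} (hρ0 : 0 < ρ) (hc : 0 < c) (hc2 : c ≤ 1 / 2) (hρB : ρ ≤ ‖C.B‖)
    (hρ : ∀ t, ‖C.β t‖ < ρ → |cr C.e (C.β t)| ≤ c * ‖C.β t‖) {z : ℂ} (hz : ‖z‖ < ρ)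
    (hz' : c * ‖z‖ < cr C.e z) : z ∈ C.Vp := by
  have hn := C.norm_zp
  have hn0 := norm_nonneg C.zp
  refine C.sub_Vp (S := cone 0 C.e ρ c) (convex_cone _ _ _ hc.le).isPreconnected ?_
    (x := (ρ / 4) • C.zp) ?_ (C.GAp_Vp ?_) ?_
  · intro y hy
    have h1 := hy.1
    have h2 := hy.2
    rw [sub_zero] at h1 h2
    exact C.coneA_sub hc hρB hρ h1 (h2.trans_le (le_abs_self _))
  · have e : ‖(ρ / 4) • C.zp‖ = ρ / 4 * ‖C.zp‖ := by
      rw [norm_smul, Real.norm_eq_abs, abs_of_pos (by positivity)]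
    refine ⟨?_, ?_⟩
    · rw [sub_zero, e]; nlinarith
    · rw [sub_zero, e, cr_smul, C.cr_zp]
      have : c * ‖C.zp‖ < 1 := by nlinarith
      nlinarith
  · refine ⟨?_, ?_⟩
    · have := C.zp_mem.1
      rw [Complex.smul_re, smul_eq_mul]
      nlinarith
    · rw [cr_smul, C.cr_zp]; positivity
  · refine ⟨?_, ?_⟩
    · rw [sub_zero]; exact hz
    · rw [sub_zero]; exact hz'

/-- The lower cone at `0` is not above. -/
lemma coneA_Vm {ρ c : ℝ} (hρ0 : 0 < ρ) (hc : 0 < c) (hc2 : c ≤ 1 / 2) (hρB : ρ ≤ ‖C.B‖)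
    (hρ : ∀ t, ‖C.β t‖ < ρ → |cr C.e (C.β t)| ≤ c * ‖C.β t‖) {z : ℂ} (hz : ‖z‖ < ρ)
    (hz' : cr C.e z < -(c * ‖z‖)) : z ∉ C.Vp := by
  have hn := C.norm_zm
  have hn0 := norm_nonneg C.zm
  refine C.not_Vp (S := coneM 0 C.e ρ c) (convex_coneM _ _ _ hc.le).isPreconnected ?_
    (x := (ρ / 4) • C.zm) ?_ (C.GAm_Vp ?_) ?_
  · intro y hy
    have h1 := hy.1
    have h2 := hy.2
    rw [sub_zero] at h1 h2
    exact C.coneA_sub hc hρB hρ h1 (by have := neg_abs_le (cr C.e y); linarith)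
  · have e : ‖(ρ / 4) • C.zm‖ = ρ / 4 * ‖C.zm‖ := by
      rw [norm_smul, Real.norm_eq_abs, abs_of_pos (by positivity)]
    refine ⟨?_, ?_⟩
    · rw [sub_zero, e]; nlinarith
    · rw [sub_zero, e, cr_smul, C.cr_zm]
      have : c * ‖C.zm‖ < 1 := by nlinarith
      nlinarith
  · refine ⟨?_, ?_⟩
    · have := C.zm_mem.1
      rw [Complex.smul_im, smul_eq_mul]
      nlinarith
    · rw [cr_smul, C.cr_zm]; linarith
  · refine ⟨?_, ?_⟩
    · rw [sub_zero]; exact hz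
    · rw [sub_zero]; exact hz'

/-- The upper cone at `B` is above. -/
lemma coneB_Vp {ρ c : ℝ} (hρ0 : 0 < ρ) (hc : 0 < c) (hc2 : c ≤ 1 / 2) (hρB : ρ ≤ ‖C.B‖)
    (hρ : ∀ t, ‖C.β t - C.B‖ < ρ → |cr C.g (C.β t - C.B)| ≤ c * ‖C.β t - C.B‖) {z : ℂ}
    (hz : ‖z - C.B‖ < ρ) (hz' : c * ‖z - C.B‖ < cr C.g (z - C.B)) : z ∈ C.Vp := by
  set y : ℂ := ⟨C.g.re - C.g.im, C.g.im + C.g.re⟩ with hy
  have hcr : cr C.g y = 1 := by have := C.g_sq; simp only [cr, hy]; linarith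
  have hdt : dt C.g y = 1 := by have := C.g_sq; simp only [dt, hy]; linarith
  have hn : ‖y‖ < 2 := by
    have h := sq_add_sq C.hg y
    rw [hcr, hdt] at h
    nlinarith [norm_nonneg y]
  have hn0 := norm_nonneg y
  refine C.sub_Vp (S := cone C.B C.g ρ c) (convex_cone _ _ _ hc.le).isPreconnected ?_
    (x := C.B + (ρ / 4) • y) ?_ (C.GBp_Vp ?_) ⟨hz, hz'⟩
  · intro y hy
    exact C.coneB_sub hc hρB hρ hy.1 (hy.2.trans_le (le_abs_self _))
  · have e : ‖(ρ / 4) • y‖ = ρ / 4 * ‖y‖ := by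
      rw [norm_smul, Real.norm_eq_abs, abs_of_pos (by positivity)]
    refine ⟨?_, ?_⟩
    · rw [add_sub_cancel_left, e]; nlinarith
    · rw [add_sub_cancel_left, e, cr_smul, hcr]
      have : c * ‖y‖ < 1 := by nlinarith
      nlinarith
  · refine ⟨?_, ?_⟩
    · have := C.g_pos
      rw [Complex.add_im, Complex.smul_im, smul_eq_mul]
      simp only [hy]
      nlinarith
    · rw [add_sub_cancel_left, cr_smul, hcr]; positivity

/-- The lower cone at `B` is not above. -/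
lemma coneB_Vm {ρ c : ℝ} (hρ0 : 0 < ρ) (hc : 0 < c) (hc2 : c ≤ 1 / 2) (hρB : ρ ≤ ‖C.B‖)
    (hρ : ∀ t, ‖C.β t - C.B‖ < ρ → |cr C.g (C.β t - C.B)| ≤ c * ‖C.β t - C.B‖) {z : ℂ}
    (hz : ‖z - C.B‖ < ρ) (hz' : cr C.g (z - C.B) < -(c * ‖z - C.B‖)) : z ∉ C.Vp := by
  set y : ℂ := ⟨C.g.re + C.g.im, C.g.im - C.g.re⟩ with hy
  have hcr : cr C.g y = -1 := by have := C.g_sq; simp only [cr, hy]; linarith
  have hdt : dt C.g y = 1 := by have := C.g_sq; simp only [dt, hy]; linarith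
  have hn : ‖y‖ < 2 := by
    have h := sq_add_sq C.hg y
    rw [hcr, hdt] at h
    nlinarith [norm_nonneg y]
  have hn0 := norm_nonneg y
  refine C.not_Vp (S := coneM C.B C.g ρ c) (convex_coneM _ _ _ hc.le).isPreconnected ?_
    (x := C.B + (ρ / 4) • y) ?_ (C.GBm_Vp ?_) ⟨hz, hz'⟩
  · intro y hy
    exact C.coneB_sub hc hρB hρ hy.1 (by have := hy.2; have := neg_abs_le (cr C.g (y - C.B));
                                         linarith)
  · have e : ‖(ρ / 4) • y‖ = ρ / 4 * ‖y‖ := by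
      rw [norm_smul, Real.norm_eq_abs, abs_of_pos (by positivity)]
    refine ⟨?_, ?_⟩
    · rw [add_sub_cancel_left, e]; nlinarith
    · rw [add_sub_cancel_left, e, cr_smul, hcr]
      have : c * ‖y‖ < 1 := by nlinarith
      nlinarith
  · refine ⟨?_, ?_⟩
    · have := C.g_pos
      rw [Complex.add_re, Complex.smul_re, smul_eq_mul]
      simp only [hy]
      nlinarith
    · rw [add_sub_cancel_left, cr_smul, hcr]; linarith

/-- The open lower arc avoids the extended upper arc. -/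
lemma α_not_Uh {s : ℝ} (hs : s ∈ Ioo (0 : ℝ) 1) : C.α s ∉ C.Uh := by
  have h0 : C.α s ≠ 0 := by
    intro h
    have : C.α s = C.α 0 := by rw [h, C.α0 0 le_rfl]
    have := C.inj ⟨hs.1.le, hs.2.le⟩ ⟨le_rfl, zero_le_one⟩ this
    linarith [hs.1]
  have h1 : C.α s ≠ C.B := by
    intro h
    have : C.α s = C.α 1 := by rw [h, C.α1 1 le_rfl]
    have := C.inj ⟨hs.1.le, hs.2.le⟩ ⟨zero_le_one, le_rfl⟩ this
    linarith [hs.2]
  rintro ((⟨t, ht⟩ | h) | h)
  · exact C.disj s hs t ht.symm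
  · have e := C.S0_eq h
    set t := dt C.e (C.α s) with ht
    have ht0 : t ≤ 0 := h.2
    have b := C.bα s
    rw [e] at b
    simp only [Complex.smul_re, Complex.smul_im, smul_eq_mul] at b
    have : t * (C.e.re + C.e.im) = 0 := by
      have := mul_nonneg (neg_nonneg.2 ht0) C.e_pos.le
      nlinarith [b.1, b.2.2.1]
    have ht1 : t = 0 := (mul_eq_zero.1 this).resolve_right C.e_pos.ne'
    rw [ht1, zero_smul] at e
    exact h0 e
  · have e := C.S1_eq h
    set t := dt C.g (C.α s - C.B) with ht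
    have ht0 : 0 ≤ t := h.2
    have b := C.bα s
    rw [e] at b
    simp only [Complex.add_re, Complex.add_im, Complex.smul_re, Complex.smul_im, smul_eq_mul] at b
    have : t * (C.g.re + C.g.im) = 0 := by
      have := mul_nonneg ht0 C.g_pos.le
      nlinarith [b.2.1, b.2.2.2]
    have ht1 : t = 0 := (mul_eq_zero.1 this).resolve_right C.g_pos.ne'
    rw [ht1, zero_smul, add_zero] at e
    exact h1 e

/-- The open lower arc is not above. -/
lemma α_not_Vp {s : ℝ} (hs : s ∈ Ioo (0 : ℝ) 1) : C.α s ∉ C.Vp := by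
  obtain ⟨ε, hε, s1, hs1, hLA⟩ := C.LA
  set c : ℝ := min (1 / 2) (ε / 2) with hc
  have hc0 : 0 < c := by positivity
  obtain ⟨ρ0, hρ0, hρ⟩ := C.TA c hc0
  set ρ : ℝ := min ρ0 ‖C.B‖ with hρd
  have hρp : 0 < ρ := lt_min hρ0 (norm_pos_iff.2 C.B_ne)
  have hρ' : ∀ t, ‖C.β t‖ < ρ → |cr C.e (C.β t)| ≤ c * ‖C.β t‖ := fun t ht =>
    hρ t (ht.trans_le (min_le_left _ _))
  -- a point of the arc near `0`
  have hcont : Filter.Tendsto C.α (nhdsWithin 0 (Ioi 0)) (nhds 0) := by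
    have := C.hα.tendsto 0
    rw [C.α0 0 le_rfl] at this
    exact this.mono_left nhdsWithin_le_nhds
  have hev : ∀ᶠ s in nhdsWithin (0 : ℝ) (Ioi 0), ‖C.α s‖ < ρ := by
    have := hcont.norm
    rw [norm_zero] at this
    exact this.eventually (gt_mem_nhds hρp)
  have hev2 : ∀ᶠ s in nhdsWithin (0 : ℝ) (Ioi 0), s ∈ Ioo (0 : ℝ) (min s1 1) :=
    Ioo_mem_nhdsGT (lt_min hs1.1 one_pos)
  obtain ⟨s', h1, h2⟩ := (hev.and hev2).exists
  have hs'1 : s' < s1 := h2.2.trans_le (min_le_left _ _)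
  have hs'2 : s' < 1 := h2.2.trans_le (min_le_right _ _)
  have hne : 0 < ‖C.α s'‖ := by
    apply norm_pos_iff.2
    intro h
    have : C.α s' = C.α 0 := by rw [h, C.α0 0 le_rfl]
    have := C.inj ⟨h2.1.le, hs'2.le⟩ ⟨le_rfl, zero_le_one⟩ this
    linarith [h2.1]
  have hnot : C.α s' ∉ C.Vp := by
    apply C.coneA_Vm hρp hc0 (min_le_left _ _) (min_le_right _ _) hρ' h1
    have := hLA s' ⟨h2.1.le, hs'1.le⟩
    have hc2 : c ≤ ε / 2 := min_le_right _ _
    nlinarith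
  refine C.not_Vp (S := C.α '' Ioo 0 1) (isPreconnected_Ioo.image _ C.hα.continuousOn) ?_
    (mem_image_of_mem _ ⟨h2.1, hs'2⟩) hnot (mem_image_of_mem _ hs)
  rintro _ ⟨t, ht, rfl⟩
  exact C.α_not_Uh ht

lemma frontier_Vp : frontier C.Vp ⊆ C.Uh := by
  intro z hz
  by_contra hU
  have hopen : IsOpen (connectedComponentIn C.Uhᶜ z) :=
    C.isClosed_Uh.isOpen_compl.connectedComponentIn
  have hzW : z ∈ connectedComponentIn C.Uhᶜ z := mem_connectedComponentIn hU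
  obtain ⟨y, hy1, hy2⟩ := mem_closure_iff.1 hz.1 _ hopen hzW
  have hsub := C.sub_Vp isPreconnected_connectedComponentIn (connectedComponentIn_subset _ _)
    hy1 hy2
  have hzV : z ∈ C.Vp := hsub hzW
  have := hz.2
  rw [C.isOpen_Vp.interior_eq] at this
  exact this hzV

open Classical in
/-- The signed distance to the extended upper arc. -/
noncomputable def side (z : ℂ) : ℝ :=
  if z ∈ C.Vp then Metric.infDist z C.Uh else -Metric.infDist z C.Uh

lemma Uh_nonempty : C.Uh.Nonempty := ⟨_, C.ext_β_mem 0⟩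

lemma infDist_pos {z : ℂ} (hz : z ∉ C.Uh) : 0 < Metric.infDist z C.Uh :=
  (C.isClosed_Uh.notMem_iff_infDist_pos C.Uh_nonempty).1 hz

lemma side_zero {z : ℂ} : C.side z = 0 ↔ z ∈ C.Uh := by
  constructor
  · intro h
    by_contra hz
    have hp := C.infDist_pos hz
    unfold side at h
    split_ifs at h <;> linarith
  · intro h
    have := Metric.infDist_zero_of_mem h
    unfold side
    split_ifs <;> simp [this]

lemma side_pos {z : ℂ} (hz : z ∈ C.Vp) : 0 < C.side z := by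
  have hU : z ∉ C.Uh := connectedComponentIn_subset _ _ hz
  unfold side
  rw [if_pos hz]
  exact C.infDist_pos hU

lemma side_neg {z : ℂ} (hU : z ∉ C.Uh) (hz : z ∉ C.Vp) : C.side z < 0 := by
  unfold side
  rw [if_neg hz]
  have := C.infDist_pos hU
  linarith

lemma mem_of_side_pos {z : ℂ} (h : 0 < C.side z) : z ∈ C.Vp := by
  by_contra hz
  unfold side at h
  rw [if_neg hz] at h
  have : 0 ≤ Metric.infDist z C.Uh := Metric.infDist_nonneg
  linarith

lemma not_mem_of_side_neg {z : ℂ} (h : C.side z < 0) : z ∉ C.Vp := fun hz => by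
  have := C.side_pos hz
  linarith

lemma continuous_side : Continuous C.side := by
  classical
  have h : C.side = fun z => if z ∈ C.Vp then Metric.infDist z C.Uh
      else -Metric.infDist z C.Uh := by
    funext z
    unfold side
    congr
  rw [h]
  refine Continuous.if ?_ (Metric.continuous_infDist_pt _) (Metric.continuous_infDist_pt _).neg
  intro z hz
  have : Metric.infDist z C.Uh = 0 := Metric.infDist_zero_of_mem (C.frontier_Vp hz)
  rw [this, neg_zero]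

end Cfg

end Pool.MP_7ec17a_gt.T
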