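import Pool.Agent.Work.MP_7ec17a_gt_T.Lift

/-!
# The configuration: two arcs in a box, from one corner to the opposite one
-/

set_option autoImplicit false

open Set

namespace Pool.MP_7ec17a_gt.T

/-- Cross product. -/
def cr (e z : ℂ) : ℝ := e.re * z.im - e.im * z.re

/-- Scalar product. -/
def dt (e z : ℂ) : ℝ := e.re * z.re + e.im * z.im

/-- Multiplication by `i r`. -/
def rot (r : ℝ) (v : ℂ) : ℂ := ⟨-(r * v.im), r * v.re⟩

lemma cr_add (e z w : ℂ) : cr e (z + w) = cr e z + cr e w := by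
  simp only [cr, Complex.add_re, Complex.add_im]; ring

lemma cr_sub (e z w : ℂ) : cr e (z - w) = cr e z - cr e w := by
  simp only [cr, Complex.sub_re, Complex.sub_im]; ring

lemma dt_add (e z w : ℂ) : dt e (z + w) = dt e z + dt e w := by
  simp only [dt, Complex.add_re, Complex.add_im]; ring

lemma dt_sub (e z w : ℂ) : dt e (z - w) = dt e z - dt e w := by
  simp only [dt, Complex.sub_re, Complex.sub_im]; ring

lemma cr_smul (e : ℂ) (t : ℝ) (z : ℂ) : cr e (t • z) = t * cr e z := by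
  simp only [cr, Complex.smul_re, Complex.smul_im, smul_eq_mul]; ring

lemma dt_smul (e : ℂ) (t : ℝ) (z : ℂ) : dt e (t • z) = t * dt e z := by
  simp only [dt, Complex.smul_re, Complex.smul_im, smul_eq_mul]; ring

lemma cr_rot (e : ℂ) (r : ℝ) (v : ℂ) : cr e (rot r v) = r * dt e v := by
  simp only [cr, dt, rot]; ring

lemma dt_rot (e : ℂ) (r : ℝ) (v : ℂ) : dt e (rot r v) = -(r * cr e v) := by
  simp only [cr, dt, rot]; ring

lemma rot_sub (r : ℝ) (v w : ℂ) : rot r (v - w) = rot r v - rot r w := by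
  apply Complex.ext <;> simp [rot] <;> ring

lemma norm_rot {r : ℝ} (hr : 0 ≤ r) (v : ℂ) : ‖rot r v‖ = r * ‖v‖ := by
  rw [Complex.norm_def, Complex.norm_def, Complex.normSq_apply, Complex.normSq_apply]
  have : (rot r v).re * (rot r v).re + (rot r v).im * (rot r v).im =
      r ^ 2 * (v.re * v.re + v.im * v.im) := by
    simp only [rot]; ring
  rw [this, Real.sqrt_mul (by positivity), Real.sqrt_sq hr]

lemma sq_add_sq {e : ℂ} (he : ‖e‖ = 1) (z : ℂ) : cr e z ^ 2 + dt e z ^ 2 = ‖z‖ ^ 2 := by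
  have h1 : e.re * e.re + e.im * e.im = 1 := by
    rw [← Complex.normSq_apply, Complex.normSq_eq_norm_sq, he, one_pow]
  rw [← Complex.normSq_eq_norm_sq, Complex.normSq_apply]
  simp only [cr, dt]
  have : (e.re * z.im - e.im * z.re) ^ 2 + (e.re * z.re + e.im * z.im) ^ 2 =
      (e.re * e.re + e.im * e.im) * (z.re * z.re + z.im * z.im) := by ring
  rw [this, h1, one_mul]

lemma abs_cr_le {e : ℂ} (he : ‖e‖ = 1) (z : ℂ) : |cr e z| ≤ ‖z‖ := by
  apply abs_le_of_sq_le_sq _ (norm_nonneg _)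
  have := sq_add_sq he z
  nlinarith [sq_nonneg (dt e z)]

lemma abs_dt_le {e : ℂ} (he : ‖e‖ = 1) (z : ℂ) : |dt e z| ≤ ‖z‖ := by
  apply abs_le_of_sq_le_sq _ (norm_nonneg _)
  have := sq_add_sq he z
  nlinarith [sq_nonneg (cr e z)]

lemma continuous_cr (e : ℂ) : Continuous (cr e) := by unfold cr; fun_prop

lemma continuous_dt (e : ℂ) : Continuous (dt e) := by unfold dt; fun_prop

/-- Two arcs `α`, `β` from the corner `0` to the opposite corner `B` of a box, with the tails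
`-e` and `g`. -/
structure Cfg where
  /-- lower arc -/
  α : ℝ → ℂ
  /-- upper arc -/
  β : ℝ → ℂ
  /-- upper right corner -/
  B : ℂ
  /-- direction of the tail at `0` -/
  e : ℂ
  /-- direction of the tail at `B` -/
  g : ℂ
  hα : Continuous α
  hβ : Continuous β
  α0 : ∀ s, s ≤ 0 → α s = 0
  α1 : ∀ s, 1 ≤ s → α s = B
  β0 : ∀ s, s ≤ 0 → β s = 0
  β1 : ∀ s, 1 ≤ s → β s = B
  he : ‖e‖ = 1
  he1 : 0 ≤ e.re
  he2 : 0 ≤ e.im
  hg : ‖g‖ = 1
  hg1 : 0 ≤ g.re
  hg2 : 0 ≤ g.im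
  bα : ∀ s, 0 ≤ (α s).re ∧ (α s).re ≤ B.re ∧ 0 ≤ (α s).im ∧ (α s).im ≤ B.im
  bβ : ∀ s, 0 ≤ (β s).re ∧ (β s).re ≤ B.re ∧ 0 ≤ (β s).im ∧ (β s).im ≤ B.im
  inj : InjOn α (Icc 0 1)
  disj : ∀ s ∈ Ioo (0 : ℝ) 1, ∀ t, α s ≠ β t
  TA : ∀ c : ℝ, 0 < c → ∃ ρ : ℝ, 0 < ρ ∧ ∀ t, ‖β t‖ < ρ → |cr e (β t)| ≤ c * ‖β t‖
  TB : ∀ c : ℝ, 0 < c → ∃ ρ : ℝ, 0 < ρ ∧ ∀ t, ‖β t - B‖ < ρ →
    |cr g (β t - B)| ≤ c * ‖β t - B‖
  LA : ∃ ε : ℝ, 0 < ε ∧ ∃ s1 ∈ Ioc (0 : ℝ) 1, ∀ s ∈ Icc 0 s1, cr e (α s) ≤ -(ε * ‖α s‖)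
  LB : ∃ ε : ℝ, 0 < ε ∧ ∃ s1 ∈ Ico (0 : ℝ) 1, ∀ s ∈ Icc s1 1,
    ε * ‖α s - B‖ ≤ |cr g (α s - B)|

namespace Cfg

variable (C : Cfg)

/-- The tail at `0`. -/
def S0 : Set ℂ := {z | cr C.e z = 0 ∧ dt C.e z ≤ 0}

/-- The tail at `B`. -/
def S1 : Set ℂ := {z | cr C.g (z - C.B) = 0 ∧ 0 ≤ dt C.g (z - C.B)}

/-- The extended upper arc, as a set. -/
def Uh : Set ℂ := range C.β ∪ C.S0 ∪ C.S1

/-- Extension of an arc by the two tails. -/
noncomputable def ext (γ : ℝ → ℂ) (s : ℝ) : ℂ := γ s + min s 0 • C.e + max (s - 1) 0 • C.g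

lemma ext_neg {γ : ℝ → ℂ} (h0 : ∀ s, s ≤ 0 → γ s = 0) {s : ℝ} (hs : s ≤ 0) :
    C.ext γ s = s • C.e := by
  unfold ext
  rw [h0 s hs, min_eq_left hs, max_eq_right (by linarith)]
  simp

lemma ext_mid (γ : ℝ → ℂ) {s : ℝ} (h0 : 0 ≤ s) (h1 : s ≤ 1) : C.ext γ s = γ s := by
  unfold ext
  rw [min_eq_right h0, max_eq_right (by linarith)]
  simp

lemma ext_big {γ : ℝ → ℂ} (h1 : ∀ s, 1 ≤ s → γ s = C.B) {s : ℝ} (hs : 1 ≤ s) :
    C.ext γ s = C.B + (s - 1) • C.g := by
  unfold ext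
  rw [h1 s hs, min_eq_right (by linarith), max_eq_left (by linarith)]
  simp

lemma continuous_ext {γ : ℝ → ℂ} (h : Continuous γ) : Continuous (C.ext γ) := by
  unfold ext
  fun_prop

lemma e_pos : 0 < C.e.re + C.e.im := by
  by_contra h
  push Not at h
  have h1 : C.e.re = 0 := by linarith [C.he1, C.he2]
  have h2 : C.e.im = 0 := by linarith [C.he1, C.he2]
  have : C.e = 0 := Complex.ext h1 h2
  have h3 := C.he
  rw [this, norm_zero] at h3
  exact zero_ne_one h3

lemma g_pos : 0 < C.g.re + C.g.im := by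
  by_contra h
  push Not at h
  have h1 : C.g.re = 0 := by linarith [C.hg1, C.hg2]
  have h2 : C.g.im = 0 := by linarith [C.hg1, C.hg2]
  have : C.g = 0 := Complex.ext h1 h2
  have h3 := C.hg
  rw [this, norm_zero] at h3
  exact zero_ne_one h3

lemma e_sq : C.e.re * C.e.re + C.e.im * C.e.im = 1 := by
  rw [← Complex.normSq_apply, Complex.normSq_eq_norm_sq, C.he, one_pow]

lemma g_sq : C.g.re * C.g.re + C.g.im * C.g.im = 1 := by
  rw [← Complex.normSq_apply, Complex.normSq_eq_norm_sq, C.hg, one_pow]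

lemma B_re : 0 ≤ C.B.re := (C.bα 0).1.trans (C.bα 0).2.1

lemma B_im : 0 ≤ C.B.im := (C.bα 0).2.2.1.trans (C.bα 0).2.2.2

lemma B_ne : C.B ≠ 0 := by
  intro h
  have h1 : C.α 0 = C.α 1 := by rw [C.α0 0 le_rfl, C.α1 1 le_rfl, h]
  exact zero_ne_one (C.inj ⟨le_rfl, zero_le_one⟩ ⟨zero_le_one, le_rfl⟩ h1)

/-- The closed quadrant at `0`. -/
def Q0 : Set ℂ := {z | 0 ≤ z.re ∧ 0 ≤ z.im}

/-- The closed quadrant at `B`. -/
def Q1 : Set ℂ := {z | z.re ≤ C.B.re ∧ z.im ≤ C.B.im}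

lemma S0_eq {z : ℂ} (hz : z ∈ C.S0) : z = dt C.e z • C.e := by
  have h := C.e_sq
  have hz1 : C.e.re * z.im - C.e.im * z.re = 0 := hz.1
  apply Complex.ext
  · simp only [dt, Complex.smul_re, smul_eq_mul]
    have : (C.e.re * z.re + C.e.im * z.im) * C.e.re =
        (C.e.re * C.e.re + C.e.im * C.e.im) * z.re
          + C.e.im * (C.e.re * z.im - C.e.im * z.re) := by ring
    rw [this, h, hz1]; ring
  · simp only [dt, Complex.smul_im, smul_eq_mul]
    have : (C.e.re * z.re + C.e.im * z.im) * C.e.im =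
        (C.e.re * C.e.re + C.e.im * C.e.im) * z.im
          - C.e.re * (C.e.re * z.im - C.e.im * z.re) := by ring
    rw [this, h, hz1]; ring

lemma S1_eq {z : ℂ} (hz : z ∈ C.S1) : z = C.B + dt C.g (z - C.B) • C.g := by
  have h := C.g_sq
  set y := z - C.B with hy
  have hz1 : C.g.re * y.im - C.g.im * y.re = 0 := hz.1
  have key : y = dt C.g y • C.g := by
    apply Complex.ext
    · simp only [dt, Complex.smul_re, smul_eq_mul]
      have : (C.g.re * y.re + C.g.im * y.im) * C.g.re =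
          (C.g.re * C.g.re + C.g.im * C.g.im) * y.re
            + C.g.im * (C.g.re * y.im - C.g.im * y.re) := by ring
      rw [this, h, hz1]; ring
    · simp only [dt, Complex.smul_im, smul_eq_mul]
      have : (C.g.re * y.re + C.g.im * y.im) * C.g.im =
          (C.g.re * C.g.re + C.g.im * C.g.im) * y.im
            - C.g.re * (C.g.re * y.im - C.g.im * y.re) := by ring
      rw [this, h, hz1]; ring
  rw [← key, hy]; ring

lemma smul_mem_S0 {t : ℝ} (ht : t ≤ 0) : t • C.e ∈ C.S0 := by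
  refine ⟨?_, ?_⟩
  · simp only [cr, Complex.smul_re, Complex.smul_im, smul_eq_mul]; ring
  · have := C.e_sq
    simp only [dt, Complex.smul_re, Complex.smul_im, smul_eq_mul]
    nlinarith

lemma smul_mem_S1 {t : ℝ} (ht : 0 ≤ t) : C.B + t • C.g ∈ C.S1 := by
  refine ⟨?_, ?_⟩
  · rw [add_sub_cancel_left]
    simp only [cr, Complex.smul_re, Complex.smul_im, smul_eq_mul]; ring
  · rw [add_sub_cancel_left]
    have := C.g_sq
    simp only [dt, Complex.smul_re, Complex.smul_im, smul_eq_mul]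
    nlinarith

lemma isClosed_Uh : IsClosed C.Uh := by
  have h1 : range C.β = C.β '' Icc 0 1 := by
    apply Subset.antisymm
    · rintro _ ⟨s, rfl⟩
      rcases le_total s 0 with h | h
      · exact ⟨0, ⟨le_rfl, zero_le_one⟩, by rw [C.β0 s h, C.β0 0 le_rfl]⟩
      · rcases le_total s 1 with h' | h'
        · exact ⟨s, ⟨h, h'⟩, rfl⟩
        · exact ⟨1, ⟨zero_le_one, le_rfl⟩, by rw [C.β1 s h', C.β1 1 le_rfl]⟩
    · exact image_subset_range _ _
  have h2 : IsClosed (range C.β) := by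
    rw [h1]; exact (isCompact_Icc.image C.hβ).isClosed
  have h3 : IsClosed C.S0 :=
    (isClosed_eq (continuous_cr _) continuous_const).inter
      (isClosed_le (continuous_dt _) continuous_const)
  have h4 : IsClosed C.S1 :=
    (isClosed_eq ((continuous_cr _).comp (continuous_id.sub continuous_const))
      continuous_const).inter
      (isClosed_le continuous_const ((continuous_dt _).comp (continuous_id.sub continuous_const)))
  exact (h2.union h3).union h4

lemma ext_β_mem (t : ℝ) : C.ext C.β t ∈ C.Uh := by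
  rcases le_total t 0 with h | h
  · rw [C.ext_neg C.β0 h]; exact Or.inl (Or.inr (C.smul_mem_S0 h))
  · rcases le_total t 1 with h' | h'
    · rw [C.ext_mid C.β h h']; exact Or.inl (Or.inl ⟨t, rfl⟩)
    · rw [C.ext_big C.β1 h']; exact Or.inr (C.smul_mem_S1 (by linarith))

lemma B_g_mem {t : ℝ} (ht : 0 ≤ t) : C.B + t • C.g ∈ Q0 := by
  have h1 := C.B_re
  have h2 := C.B_im
  have h3 := mul_nonneg ht C.hg1
  have h4 := mul_nonneg ht C.hg2
  exact ⟨by simpa using add_nonneg h1 h3, by simpa using add_nonneg h2 h4⟩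

lemma e_mem {t : ℝ} (ht : t ≤ 0) : t • C.e ∈ C.Q1 := by
  have h1 := C.B_re
  have h2 := C.B_im
  have h3 := mul_nonneg (neg_nonneg.2 ht) C.he1
  have h4 := mul_nonneg (neg_nonneg.2 ht) C.he2
  refine ⟨?_, ?_⟩
  · simp only [Complex.smul_re, smul_eq_mul]; linarith
  · simp only [Complex.smul_im, smul_eq_mul]; linarith

lemma Uh_left {z : ℂ} (hz : z ∈ C.Uh) : z ∈ C.S0 ∨ z ∈ Q0 := by
  rcases hz with (⟨t, rfl⟩ | hz) | hz
  · exact Or.inr ⟨(C.bβ t).1, (C.bβ t).2.2.1⟩
  · exact Or.inl hz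
  · right
    rw [C.S1_eq hz]
    exact C.B_g_mem hz.2

lemma Uh_right {z : ℂ} (hz : z ∈ C.Uh) : z ∈ C.S1 ∨ z ∈ C.Q1 := by
  rcases hz with (⟨t, rfl⟩ | hz) | hz
  · exact Or.inr ⟨(C.bβ t).2.1, (C.bβ t).2.2.2⟩
  · right
    rw [C.S0_eq hz]
    exact C.e_mem hz.2
  · exact Or.inl hz

lemma L_left (s : ℝ) : C.ext C.α s ∈ C.S0 ∨ C.ext C.α s ∈ Q0 := by
  rcases le_total s 0 with h | h
  · rw [C.ext_neg C.α0 h]; exact Or.inl (C.smul_mem_S0 h)
  · rcases le_total s 1 with h' | h'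
    · rw [C.ext_mid C.α h h']; exact Or.inr ⟨(C.bα s).1, (C.bα s).2.2.1⟩
    · rw [C.ext_big C.α1 h']; exact Or.inr (C.B_g_mem (by linarith))

lemma L_right (s : ℝ) : C.ext C.α s ∈ C.S1 ∨ C.ext C.α s ∈ C.Q1 := by
  rcases le_total s 0 with h | h
  · rw [C.ext_neg C.α0 h]; exact Or.inr (C.e_mem h)
  · rcases le_total s 1 with h' | h'
    · rw [C.ext_mid C.α h h']; exact Or.inr ⟨(C.bα s).2.1, (C.bα s).2.2.2⟩
    · rw [C.ext_big C.α1 h']; exact Or.inl (C.smul_mem_S1 (by linarith))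

/-- Exclusion at the left tail. -/
lemma excl_left {t : ℝ} (ht : t < 0) {x y : ℂ} (hx : x ∈ C.S0 ∨ x ∈ Q0)
    (hy : y ∈ C.S0 ∨ y ∈ Q0) (hx' : x ≠ t • C.e) (hy' : y ≠ t • C.e) :
    dt (x - t • C.e) (y - t • C.e) ≠ 0 := by
  have h := C.e_sq
  have he1 := C.he1
  have he2 := C.he2
  have dtQ : ∀ z ∈ Q0, 0 ≤ dt C.e z := fun z hz =>
    add_nonneg (mul_nonneg he1 hz.1) (mul_nonneg he2 hz.2)
  have key : ∀ x y : ℂ, x ∈ C.S0 → (y ∈ C.S0 ∨ y ∈ Q0) → x ≠ t • C.e → y ≠ t • C.e →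
      dt (x - t • C.e) (y - t • C.e) ≠ 0 := by
    intro x y hx hy hx' hy'
    have ex := C.S0_eq hx
    set a := dt C.e x with ha
    have hat : a - t ≠ 0 := by
      intro h0
      apply hx'
      rw [ex]
      congr 1
      linarith
    have e1 : dt (x - t • C.e) (y - t • C.e) = (a - t) * (dt C.e y - t) := by
      rw [ex]
      simp only [dt, Complex.sub_re, Complex.sub_im, Complex.smul_re, Complex.smul_im, smul_eq_mul]
      have : (a * C.e.re - t * C.e.re) * (y.re - t * C.e.re) +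
          (a * C.e.im - t * C.e.im) * (y.im - t * C.e.im) =
          (a - t) * (C.e.re * y.re + C.e.im * y.im - t * (C.e.re * C.e.re + C.e.im * C.e.im)) := by
        ring
      rw [this, h, mul_one]
    rw [e1]
    refine mul_ne_zero hat ?_
    rcases hy with hy | hy
    · intro h0
      apply hy'
      rw [C.S0_eq hy]
      congr 1
      linarith
    · have := dtQ y hy
      linarith
  rcases hx with hx | hx
  · exact key x y hx hy hx' hy'
  · rcases hy with hy | hy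
    · have := key y x hy (Or.inr hx) hy' hx'
      intro h0
      apply this
      rw [← h0]
      simp only [dt]; ring
    · apply ne_of_gt
      have h1 : 0 ≤ -t * C.e.re := mul_nonneg (by linarith) he1
      have h2 : 0 ≤ -t * C.e.im := mul_nonneg (by linarith) he2
      have hpos : 0 < t * t := mul_pos_of_neg_of_neg ht ht
      simp only [dt, Complex.sub_re, Complex.sub_im, Complex.smul_re, Complex.smul_im, smul_eq_mul]
      have e1 : (x.re - t * C.e.re) * (y.re - t * C.e.re) +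
          (x.im - t * C.e.im) * (y.im - t * C.e.im) =
          x.re * y.re + x.im * y.im + (-t * C.e.re) * (x.re + y.re)
            + (-t * C.e.im) * (x.im + y.im) + t * t * (C.e.re * C.e.re + C.e.im * C.e.im) := by
        ring
      rw [e1, h]
      have p1 := mul_nonneg hx.1 hy.1
      have p2 := mul_nonneg hx.2 hy.2
      have p3 := mul_nonneg h1 (add_nonneg hx.1 hy.1)
      have p4 := mul_nonneg h2 (add_nonneg hx.2 hy.2)
      linarith

/-- Exclusion at the right tail. -/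
lemma excl_right {t : ℝ} (ht : 0 < t) {x y : ℂ} (hx : x ∈ C.S1 ∨ x ∈ C.Q1)
    (hy : y ∈ C.S1 ∨ y ∈ C.Q1) (hx' : x ≠ C.B + t • C.g) (hy' : y ≠ C.B + t • C.g) :
    dt (x - (C.B + t • C.g)) (y - (C.B + t • C.g)) ≠ 0 := by
  have h := C.g_sq
  have hg1 := C.hg1
  have hg2 := C.hg2
  have dtQ : ∀ z ∈ C.Q1, dt C.g (z - C.B) ≤ 0 := fun z hz => by
    have h1 := mul_nonneg hg1 (sub_nonneg.2 hz.1)
    have h2 := mul_nonneg hg2 (sub_nonneg.2 hz.2)
    simp only [dt, Complex.sub_re, Complex.sub_im]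
    linarith
  have key : ∀ x y : ℂ, x ∈ C.S1 → (y ∈ C.S1 ∨ y ∈ C.Q1) → x ≠ C.B + t • C.g →
      y ≠ C.B + t • C.g → dt (x - (C.B + t • C.g)) (y - (C.B + t • C.g)) ≠ 0 := by
    intro x y hx hy hx' hy'
    have ex := C.S1_eq hx
    set a := dt C.g (x - C.B) with ha
    have hat : a - t ≠ 0 := by
      intro h0
      apply hx'
      rw [ex]
      congr 2
      linarith
    have e1 : dt (x - (C.B + t • C.g)) (y - (C.B + t • C.g)) =
        (a - t) * (dt C.g (y - C.B) - t) := by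
      rw [ex]
      simp only [dt, Complex.sub_re, Complex.sub_im, Complex.add_re, Complex.add_im,
        Complex.smul_re, Complex.smul_im, smul_eq_mul]
      have : (C.B.re + a * C.g.re - (C.B.re + t * C.g.re)) * (y.re - (C.B.re + t * C.g.re)) +
          (C.B.im + a * C.g.im - (C.B.im + t * C.g.im)) * (y.im - (C.B.im + t * C.g.im)) =
          (a - t) * (C.g.re * (y.re - C.B.re) + C.g.im * (y.im - C.B.im)
            - t * (C.g.re * C.g.re + C.g.im * C.g.im)) := by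
        ring
      rw [this, h, mul_one]
    rw [e1]
    refine mul_ne_zero hat ?_
    rcases hy with hy | hy
    · intro h0
      apply hy'
      rw [C.S1_eq hy]
      congr 2
      linarith
    · have := dtQ y hy
      linarith
  rcases hx with hx | hx
  · exact key x y hx hy hx' hy'
  · rcases hy with hy | hy
    · have := key y x hy (Or.inr hx) hy' hx'
      intro h0
      apply this
      rw [← h0]
      simp only [dt]; ring
    · apply ne_of_gt
      have h1 : 0 ≤ t * C.g.re := mul_nonneg ht.le hg1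
      have h2 : 0 ≤ t * C.g.im := mul_nonneg ht.le hg2
      have hpos : 0 < t * t := mul_pos ht ht
      simp only [dt, Complex.sub_re, Complex.sub_im, Complex.add_re, Complex.add_im,
        Complex.smul_re, Complex.smul_im, smul_eq_mul]
      have e1 : (x.re - (C.B.re + t * C.g.re)) * (y.re - (C.B.re + t * C.g.re)) +
          (x.im - (C.B.im + t * C.g.im)) * (y.im - (C.B.im + t * C.g.im)) =
          (C.B.re - x.re) * (C.B.re - y.re) + (C.B.im - x.im) * (C.B.im - y.im)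
            + (t * C.g.re) * ((C.B.re - x.re) + (C.B.re - y.re))
            + (t * C.g.im) * ((C.B.im - x.im) + (C.B.im - y.im))
            + t * t * (C.g.re * C.g.re + C.g.im * C.g.im) := by
        ring
      rw [e1, h]
      have p1 := mul_nonneg (sub_nonneg.2 hx.1) (sub_nonneg.2 hy.1)
      have p2 := mul_nonneg (sub_nonneg.2 hx.2) (sub_nonneg.2 hy.2)
      have p3 := mul_nonneg h1 (add_nonneg (sub_nonneg.2 hx.1) (sub_nonneg.2 hy.1))
      have p4 := mul_nonneg h2 (add_nonneg (sub_nonneg.2 hx.2) (sub_nonneg.2 hy.2))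
      linarith

end Cfg

end Pool.MP_7ec17a_gt.T
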