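import Pool.Agent.Work.MP_7ec17a_gt_T.Cfg

/-!
# The extended upper arc separates the plane
-/

set_option autoImplicit false

open Set Real

namespace Pool.MP_7ec17a_gt.T

/-- Normalisation of an angle with positive sine and cosine. -/
lemma norm_angle {x : ℝ} (hs : 0 < sin x) (hc : 0 < cos x) :
    ∃ n : ℤ, 0 < x - n * (2 * π) ∧ x - n * (2 * π) < π / 2 := by
  have hpi := Real.pi_pos
  obtain ⟨n, hn, -⟩ := existsUnique_sub_zsmul_mem_Ioc Real.two_pi_pos x (-π)
  refine ⟨n, ?_⟩
  rw [zsmul_eq_mul] at hn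
  set y := x - n * (2 * π) with hy
  have hsy : 0 < sin y := by rw [hy, Real.sin_sub_int_mul_two_pi]; exact hs
  have hcy : 0 < cos y := by rw [hy, Real.cos_sub_int_mul_two_pi]; exact hc
  have h1 : 0 < y := by
    by_contra h
    push Not at h
    have := Real.sin_nonpos_of_nonpos_of_neg_pi_le h hn.1.le
    linarith
  refine ⟨h1, ?_⟩
  by_contra h
  push Not at h
  have := Real.cos_nonpos_of_pi_div_two_le_of_le h (by linarith [hn.2])
  linarith

lemma polar {e : ℂ} (he : ‖e‖ = 1) (h1 : 0 ≤ e.re) (h2 : 0 ≤ e.im) :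
    ∃ ε : ℝ, 0 ≤ ε ∧ ε ≤ π / 2 ∧ e.re = cos ε ∧ e.im = sin ε := by
  have hne : e ≠ 0 := by
    intro h; rw [h, norm_zero] at he; exact zero_ne_one he
  refine ⟨Complex.arg e, Complex.arg_nonneg_iff.2 h2, ?_, ?_, ?_⟩
  · exact (abs_le.1 (Complex.abs_arg_le_pi_div_two_iff.2 h1)).2
  · rw [Complex.cos_arg hne, he, div_one]
  · rw [Complex.sin_arg, he, div_one]

namespace Cfg

variable (C : Cfg)

/-- Reference point above. -/
def zp : ℂ := ⟨-C.e.re - C.e.im, C.e.re - C.e.im⟩

/-- Reference point below. -/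
def zm : ℂ := ⟨-C.e.re + C.e.im, -C.e.im - C.e.re⟩

/-- Region above the left tail. -/
def GAp : Set ℂ := {z | z.re < 0 ∧ 0 < cr C.e z}

/-- Region below the left tail. -/
def GAm : Set ℂ := {z | z.im < 0 ∧ cr C.e z < 0}

/-- Region above the right tail. -/
def GBp : Set ℂ := {z | C.B.im < z.im ∧ 0 < cr C.g (z - C.B)}

/-- Region below the right tail. -/
def GBm : Set ℂ := {z | C.B.re < z.re ∧ cr C.g (z - C.B) < 0}

lemma convex_re_lt (c : ℝ) : Convex ℝ {z : ℂ | z.re < c} := by
  exact convex_halfSpace_re_lt c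

lemma convex_GAp : Convex ℝ C.GAp := by
  intro x hx y hy a b ha hb hab
  have hx1 := hx.1
  have hy1 := hy.1
  have hx2 := hx.2
  have hy2 := hy.2
  refine ⟨?_, ?_⟩
  · simp only [Complex.add_re, Complex.smul_re, smul_eq_mul]
    rcases ha.lt_or_eq with h | h
    · nlinarith
    · subst h
      have : b = 1 := by linarith
      subst this
      linarith
  · rw [cr_add, cr_smul, cr_smul]
    rcases ha.lt_or_eq with h | h
    · nlinarith [mul_pos h hx2, mul_nonneg hb hy2.le]
    · subst h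
      have : b = 1 := by linarith
      subst this
      linarith

lemma convex_GAm : Convex ℝ C.GAm := by
  intro x hx y hy a b ha hb hab
  have hx1 := hx.1
  have hy1 := hy.1
  have hx2 := hx.2
  have hy2 := hy.2
  refine ⟨?_, ?_⟩
  · simp only [Complex.add_im, Complex.smul_im, smul_eq_mul]
    rcases ha.lt_or_eq with h | h
    · nlinarith
    · subst h
      have : b = 1 := by linarith
      subst this
      linarith
  · rw [cr_add, cr_smul, cr_smul]
    rcases ha.lt_or_eq with h | h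
    · nlinarith [mul_pos h (neg_pos.2 hx2), mul_nonneg hb (neg_pos.2 hy2).le]
    · subst h
      have : b = 1 := by linarith
      subst this
      linarith

lemma sub_comb {x y B : ℂ} {a b : ℝ} (hab : a + b = 1) :
    a • x + b • y - B = a • (x - B) + b • (y - B) := by
  have : B = (a + b) • B := by rw [hab, one_smul]
  nth_rewrite 1 [this]
  rw [add_smul, smul_sub, smul_sub]
  ring

lemma convex_GBp : Convex ℝ C.GBp := by
  intro x hx y hy a b ha hb hab
  have hx1 := hx.1
  have hy1 := hy.1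
  have hx2 := hx.2
  have hy2 := hy.2
  refine ⟨?_, ?_⟩
  · simp only [Complex.add_im, Complex.smul_im, smul_eq_mul]
    have h1 := mul_nonneg ha (sub_pos.2 hx1).le
    have h2 := mul_nonneg hb (sub_pos.2 hy1).le
    have e : a * x.im + b * y.im - C.B.im = a * (x.im - C.B.im) + b * (y.im - C.B.im) := by
      have : C.B.im = (a + b) * C.B.im := by rw [hab, one_mul]
      nth_rewrite 1 [this]
      ring
    rcases ha.lt_or_eq with h | h
    · have := mul_pos h (sub_pos.2 hx1)
      linarith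
    · subst h
      have : b = 1 := by linarith
      subst this
      linarith
  · rw [sub_comb hab, cr_add, cr_smul, cr_smul]
    rcases ha.lt_or_eq with h | h
    · nlinarith [mul_pos h hx2, mul_nonneg hb hy2.le]
    · subst h
      have : b = 1 := by linarith
      subst this
      linarith

lemma convex_GBm : Convex ℝ C.GBm := by
  intro x hx y hy a b ha hb hab
  have hx1 := hx.1
  have hy1 := hy.1
  have hx2 := hx.2
  have hy2 := hy.2
  refine ⟨?_, ?_⟩
  · simp only [Complex.add_re, Complex.smul_re, smul_eq_mul]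
    have h1 := mul_nonneg ha (sub_pos.2 hx1).le
    have h2 := mul_nonneg hb (sub_pos.2 hy1).le
    have e : a * x.re + b * y.re - C.B.re = a * (x.re - C.B.re) + b * (y.re - C.B.re) := by
      have : C.B.re = (a + b) * C.B.re := by rw [hab, one_mul]
      nth_rewrite 1 [this]
      ring
    rcases ha.lt_or_eq with h | h
    · have := mul_pos h (sub_pos.2 hx1)
      linarith
    · subst h
      have : b = 1 := by linarith
      subst this
      linarith
  · rw [sub_comb hab, cr_add, cr_smul, cr_smul]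
    rcases ha.lt_or_eq with h | h
    · nlinarith [mul_pos h (neg_pos.2 hx2), mul_nonneg hb (neg_pos.2 hy2).le]
    · subst h
      have : b = 1 := by linarith
      subst this
      linarith

lemma GAp_sub : C.GAp ⊆ C.Uhᶜ := by
  intro z hz hU
  rcases C.Uh_left hU with h | h
  · have := h.1; have := hz.2; linarith
  · have := h.1; have := hz.1; linarith

lemma GAm_sub : C.GAm ⊆ C.Uhᶜ := by
  intro z hz hU
  rcases C.Uh_left hU with h | h
  · have := h.1; have := hz.2; linarith
  · have := h.2; have := hz.1; linarith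

lemma GBp_sub : C.GBp ⊆ C.Uhᶜ := by
  intro z hz hU
  rcases C.Uh_right hU with h | h
  · have := h.1; have := hz.2; linarith
  · have := h.2; have := hz.1; linarith

lemma GBm_sub : C.GBm ⊆ C.Uhᶜ := by
  intro z hz hU
  rcases C.Uh_right hU with h | h
  · have := h.1; have := hz.2; linarith
  · have := h.1; have := hz.1; linarith

lemma cr_zp : cr C.e C.zp = 1 := by
  have := C.e_sq; simp only [cr, zp]; linarith

lemma dt_zp : dt C.e C.zp = -1 := by
  have := C.e_sq; simp only [dt, zp]; linarith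

lemma cr_zm : cr C.e C.zm = -1 := by
  have := C.e_sq; simp only [cr, zm]; linarith

lemma dt_zm : dt C.e C.zm = -1 := by
  have := C.e_sq; simp only [dt, zm]; linarith

lemma zp_mem : C.zp ∈ C.GAp := by
  refine ⟨?_, ?_⟩
  · have := C.e_pos; simp only [zp]; linarith
  · rw [cr_zp]; exact one_pos

lemma zm_mem : C.zm ∈ C.GAm := by
  refine ⟨?_, ?_⟩
  · have := C.e_pos; simp only [zm]; linarith
  · rw [cr_zm]; norm_num

/-- The upper component. -/
def Vp : Set ℂ := connectedComponentIn C.Uhᶜ C.zp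

lemma isOpen_Vp : IsOpen C.Vp := C.isClosed_Uh.isOpen_compl.connectedComponentIn

lemma zp_mem_Vp : C.zp ∈ C.Vp := mem_connectedComponentIn (C.GAp_sub C.zp_mem)

/-- Separation. -/
theorem zm_not_mem : C.zm ∉ C.Vp := by
  intro hm
  have hpi := Real.pi_pos
  have hconn : IsConnected C.Vp := ⟨⟨_, hm⟩, isPreconnected_connectedComponentIn⟩
  have hp := (C.isOpen_Vp.isConnected_iff_isPathConnected).1 hconn
  obtain ⟨δ, hδ⟩ := hp.joinedIn _ hm _ C.zp_mem_Vp
  set d : ℝ → ℂ := fun t => δ.extend t with hd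
  have hdc : Continuous d := δ.extend.continuous
  have hd0 : d 0 = C.zm := δ.extend_zero
  have hd1 : d 1 = C.zp := δ.extend_one
  have hdV : ∀ t, d t ∈ C.Vp := fun t => by
    have : d t ∈ range δ := by rw [← δ.extend_range]; exact mem_range_self t
    obtain ⟨u, hu⟩ := this
    rw [← hu]; exact hδ u
  have hdU : ∀ t, d t ∉ C.Uh := fun t => connectedComponentIn_subset _ _ (hdV t)
  obtain ⟨K, hK⟩ : ∃ K, ∀ t, ‖d t‖ ≤ K := by
    obtain ⟨K, hK⟩ := (isCompact_range δ.continuous).isBounded.exists_norm_le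
    refine ⟨K, fun t => hK _ ?_⟩
    rw [← δ.extend_range]; exact mem_range_self t
  have hK0 : 0 ≤ K := (norm_nonneg _).trans (hK 0)
  set U := C.ext C.β with hU
  have hUc : Continuous U := C.continuous_ext C.hβ
  have hF : Continuous fun z : ℝ × ℝ => U z.1 - d z.2 := by fun_prop
  have hF0 : ∀ z ∈ (univ : Set (ℝ × ℝ)), (fun z : ℝ × ℝ => U z.1 - d z.2) z ≠ 0 := by
    intro z _ h0
    have : U z.1 = d z.2 := sub_eq_zero.1 h0
    exact hdU z.2 (this ▸ C.ext_β_mem z.1)
  obtain ⟨θ', hθ'c, hθ'⟩ := exists_arg convex_univ isOpen_univ ⟨(0, 0), mem_univ _⟩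
    hF.continuousOn hF0
  obtain ⟨ε, hε0, hε1, he1, he2⟩ := polar C.he C.he1 C.he2
  obtain ⟨γ, hγ0, hγ1, hg1, hg2⟩ := polar C.hg C.hg1 C.hg2
  have npos : ∀ t τ, 0 < ‖U t - d τ‖ := fun t τ => norm_pos_iff.2 (hF0 (t, τ) (mem_univ _))
  -- relations
  have Rre : ∀ t τ, (U t - d τ).re = ‖U t - d τ‖ * cos (θ' (t, τ)) := fun t τ =>
    (hθ' (t, τ) (mem_univ _)).1
  have Rim : ∀ t τ, (U t - d τ).im = ‖U t - d τ‖ * sin (θ' (t, τ)) := fun t τ =>
    (hθ' (t, τ) (mem_univ _)).2
  have Rcr : ∀ t τ, cr C.e (U t - d τ) = ‖U t - d τ‖ * sin (θ' (t, τ) - ε) := fun t τ => by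
    rw [Real.sin_sub, cr, Rre, Rim, he1, he2]; ring
  have Rdt : ∀ t τ, dt C.e (U t - d τ) = ‖U t - d τ‖ * cos (θ' (t, τ) - ε) := fun t τ => by
    rw [Real.cos_sub, dt, Rre, Rim, he1, he2]; ring
  have Rdg : ∀ t τ, dt C.g (U t - d τ) = ‖U t - d τ‖ * cos (θ' (t, τ) - γ) := fun t τ => by
    rw [Real.cos_sub, dt, Rre, Rim, hg1, hg2]; ring
  have hU0 : U 0 = 0 := by rw [hU, C.ext_neg C.β0 le_rfl, zero_smul]
  -- normalisation
  obtain ⟨n, hn0, hn1⟩ : ∃ n : ℤ, 0 < (θ' (0, 0) - ε) - n * (2 * π) ∧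
      (θ' (0, 0) - ε) - n * (2 * π) < π / 2 := by
    apply norm_angle
    · have h := Rcr 0 0
      rw [hU0, hd0, zero_sub] at h
      have h2 : cr C.e (-C.zm) = 1 := by
        have := C.cr_zm; simp only [cr, Complex.neg_re, Complex.neg_im] at this ⊢; linarith
      rw [h2] at h
      have := norm_nonneg (-C.zm)
      by_contra hneg
      push Not at hneg
      nlinarith
    · have h := Rdt 0 0
      rw [hU0, hd0, zero_sub] at h
      have h2 : dt C.e (-C.zm) = 1 := by
        have := C.dt_zm; simp only [dt, Complex.neg_re, Complex.neg_im] at this ⊢; linarith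
      rw [h2] at h
      have := norm_nonneg (-C.zm)
      by_contra hneg
      push Not at hneg
      nlinarith
  set θ : ℝ × ℝ → ℝ := fun z => θ' z - n * (2 * π) with hθ
  have hθc : Continuous θ := (continuousOn_univ.1 hθ'c).sub continuous_const
  have Sre : ∀ t τ, (U t - d τ).re = ‖U t - d τ‖ * cos (θ (t, τ)) := fun t τ => by
    rw [hθ]; simp only; rw [Real.cos_sub_int_mul_two_pi]; exact Rre t τ
  have Sim : ∀ t τ, (U t - d τ).im = ‖U t - d τ‖ * sin (θ (t, τ)) := fun t τ => by
    rw [hθ]; simp only; rw [Real.sin_sub_int_mul_two_pi]; exact Rim t τ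
  have Scr : ∀ t τ, cr C.e (U t - d τ) = ‖U t - d τ‖ * sin (θ (t, τ) - ε) := fun t τ => by
    have e : θ (t, τ) - ε = (θ' (t, τ) - ε) - n * (2 * π) := by simp only [hθ]; ring
    rw [e, Real.sin_sub_int_mul_two_pi]; exact Rcr t τ
  have Sdt : ∀ t τ, dt C.e (U t - d τ) = ‖U t - d τ‖ * cos (θ (t, τ) - ε) := fun t τ => by
    have e : θ (t, τ) - ε = (θ' (t, τ) - ε) - n * (2 * π) := by simp only [hθ]; ring
    rw [e, Real.cos_sub_int_mul_two_pi]; exact Rdt t τ
  have Sdg : ∀ t τ, dt C.g (U t - d τ) = ‖U t - d τ‖ * cos (θ (t, τ) - γ) := fun t τ => by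
    have e : θ (t, τ) - γ = (θ' (t, τ) - γ) - n * (2 * π) := by simp only [hθ]; ring
    rw [e, Real.cos_sub_int_mul_two_pi]; exact Rdg t τ
  have posOf : ∀ {t τ x : ℝ}, 0 < ‖U t - d τ‖ * x → 0 < x := fun {t τ x} h =>
    (pos_iff_pos_of_mul_pos h).1 (npos t τ)
  have negOf : ∀ {t τ x : ℝ}, ‖U t - d τ‖ * x < 0 → x < 0 := fun {t τ x} h => by
    by_contra hx
    push Not at hx
    have := mul_nonneg (npos t τ).le hx
    linarith
  have h00 : ε < θ (0, 0) ∧ θ (0, 0) < ε + π / 2 := by
    simp only [hθ]; constructor <;> linarith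
  -- row 0, left half
  have r0l : ∀ t ≤ (0 : ℝ), ε < θ (t, 0) ∧ θ (t, 0) < ε + π := by
    have hs : ∀ t ≤ (0 : ℝ), 0 < sin (θ (t, 0) - ε) := by
      intro t ht
      apply posOf (t := t) (τ := 0)
      rw [← Scr, hd0, cr_sub, C.cr_zm, hU, C.ext_neg C.β0 ht, (C.smul_mem_S0 ht).1]
      norm_num
    have := stay (S := Iic (0 : ℝ) ×ˢ ({0} : Set ℝ))
      ((convex_Iic _).prod (convex_singleton _)).isPreconnected hθc.continuousOn
      (lo := ε) (hi := ε + π) ?_ (z0 := (0, 0)) ⟨mem_Iic.2 le_rfl, rfl⟩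
      ⟨h00.1, by linarith [h00.2]⟩
    · intro t ht
      exact this (t, 0) ⟨ht, rfl⟩
    · rintro ⟨t, τ⟩ ⟨ht, hτ⟩
      have hτ' : τ = 0 := hτ
      subst hτ'
      have := hs t ht
      constructor
      · intro h; rw [h, sub_self, Real.sin_zero] at this; exact lt_irrefl _ this
      · intro h; rw [h, add_sub_cancel_left, Real.sin_pi] at this; exact lt_irrefl _ this
  -- row 0, right half
  have r0r : ∀ t, (0 : ℝ) ≤ t → 0 < θ (t, 0) ∧ θ (t, 0) < π := by
    have hs : ∀ t, (0 : ℝ) ≤ t → 0 < sin (θ (t, 0)) := by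
      intro t ht
      apply posOf (t := t) (τ := 0)
      rw [← Sim, hd0, Complex.sub_im]
      have h1 : 0 ≤ (U t).im := by
        rcases le_total t 1 with h | h
        · rw [hU, C.ext_mid C.β ht h]; exact (C.bβ t).2.2.1
        · rw [hU, C.ext_big C.β1 h]; exact (C.B_g_mem (by linarith)).2
      have h2 := C.e_pos
      simp only [zm]
      linarith
    have := stay (S := Ici (0 : ℝ) ×ˢ ({0} : Set ℝ))
      ((convex_Ici _).prod (convex_singleton _)).isPreconnected hθc.continuousOn
      (lo := 0) (hi := π) ?_ (z0 := (0, 0)) ⟨mem_Ici.2 le_rfl, rfl⟩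
      ⟨by linarith [h00.1], by linarith [h00.2]⟩
    · intro t ht
      exact this (t, 0) ⟨ht, rfl⟩
    · rintro ⟨t, τ⟩ ⟨ht, hτ⟩
      have hτ' : τ = 0 := hτ
      subst hτ'
      have := hs t ht
      constructor
      · intro h; rw [h, Real.sin_zero] at this; exact lt_irrefl _ this
      · intro h; rw [h, Real.sin_pi] at this; exact lt_irrefl _ this
  set T : ℝ := K + 2 with hT
  -- column -T
  have cm : ∀ τ, cos (θ (-T, τ) - ε) < 0 := by
    intro τ
    apply negOf (t := -T) (τ := τ)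
    rw [← Sdt, dt_sub, hU, C.ext_neg C.β0 (by linarith), dt_smul]
    have h1 : dt C.e C.e = 1 := by have := C.e_sq; simp only [dt]; linarith
    have h2 := (abs_le.1 ((abs_dt_le C.he (d τ)).trans (hK τ))).1
    rw [h1]
    linarith
  have cm0 : ε + π / 2 < θ (-T, 0) := by
    have h1 := r0l (-T) (by linarith)
    by_contra h
    push Not at h
    have := Real.cos_nonneg_of_neg_pi_div_two_le_of_le (x := θ (-T, 0) - ε) (by linarith)
      (by linarith)
    linarith [cm 0]
  have cmall : ∀ τ, ε + π / 2 < θ (-T, τ) ∧ θ (-T, τ) < ε + 3 * π / 2 := by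
    have := stay (S := ({-T} : Set ℝ) ×ˢ (univ : Set ℝ))
      ((convex_singleton _).prod convex_univ).isPreconnected hθc.continuousOn
      (lo := ε + π / 2) (hi := ε + 3 * π / 2) ?_ (z0 := (-T, 0)) ⟨rfl, mem_univ _⟩
      ⟨cm0, by linarith [(r0l (-T) (by linarith)).2]⟩
    · intro τ
      exact this (-T, τ) ⟨rfl, mem_univ _⟩
    · rintro ⟨t, τ⟩ ⟨ht, -⟩
      have ht' : t = -T := ht
      subst ht'
      have := cm τ
      constructor
      · intro h
        rw [h, add_sub_cancel_left, Real.cos_pi_div_two] at this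
        exact lt_irrefl _ this
      · intro h
        have e : θ (-T, τ) - ε = π / 2 + π := by rw [h]; ring
        rw [e, Real.cos_add_pi, Real.cos_pi_div_two, neg_zero] at this
        exact lt_irrefl _ this
  -- row 1, left half
  have s1l : ∀ t ≤ (0 : ℝ), sin (θ (t, 1) - ε) < 0 := by
    intro t ht
    apply negOf (t := t) (τ := 1)
    rw [← Scr, hd1, cr_sub, C.cr_zp, hU, C.ext_neg C.β0 ht, (C.smul_mem_S0 ht).1]
    norm_num
  have cm1 : ε + π < θ (-T, 1) := by
    by_contra h
    push Not at h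
    have := Real.sin_nonneg_of_nonneg_of_le_pi (x := θ (-T, 1) - ε)
      (by linarith [(cmall 1).1]) (by linarith)
    linarith [s1l (-T) (by linarith)]
  have r1l : ∀ t ≤ (0 : ℝ), ε + π < θ (t, 1) ∧ θ (t, 1) < ε + 2 * π := by
    have := stay (S := Iic (0 : ℝ) ×ˢ ({1} : Set ℝ))
      ((convex_Iic _).prod (convex_singleton _)).isPreconnected hθc.continuousOn
      (lo := ε + π) (hi := ε + 2 * π) ?_ (z0 := (-T, 1)) ⟨mem_Iic.2 (by linarith), rfl⟩
      ⟨cm1, by linarith [(cmall 1).2]⟩
    · intro t ht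
      exact this (t, 1) ⟨ht, rfl⟩
    · rintro ⟨t, τ⟩ ⟨ht, hτ⟩
      have hτ' : τ = 1 := hτ
      subst hτ'
      have := s1l t ht
      constructor
      · intro h; rw [h, add_sub_cancel_left, Real.sin_pi] at this; exact lt_irrefl _ this
      · intro h; rw [h, add_sub_cancel_left, Real.sin_two_pi] at this; exact lt_irrefl _ this
  have h01 : ε + 3 * π / 2 < θ (0, 1) := by
    by_contra h
    push Not at h
    have h1 := (r1l 0 le_rfl).1
    have hc : 0 < cos (θ (0, 1) - ε) := by
      apply posOf (t := 0) (τ := 1)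
      rw [← Sdt, hU0, hd1, dt_sub, C.dt_zp]
      simp [dt]
    have e : cos (θ (0, 1) - ε) = -cos (θ (0, 1) - ε - π) := by
      rw [Real.cos_sub_pi, neg_neg]
    have := Real.cos_nonneg_of_neg_pi_div_two_le_of_le (x := θ (0, 1) - ε - π) (by linarith)
      (by linarith)
    linarith
  -- row 1, right half
  have r1r : ∀ t, (0 : ℝ) ≤ t → 3 * π / 2 < θ (t, 1) ∧ θ (t, 1) < 5 * π / 2 := by
    have hs : ∀ t, (0 : ℝ) ≤ t → 0 < cos (θ (t, 1)) := by
      intro t ht
      apply posOf (t := t) (τ := 1)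
      rw [← Sre, hd1, Complex.sub_re]
      have h1 : 0 ≤ (U t).re := by
        rcases le_total t 1 with h | h
        · rw [hU, C.ext_mid C.β ht h]; exact (C.bβ t).1
        · rw [hU, C.ext_big C.β1 h]; exact (C.B_g_mem (by linarith)).1
      have h2 := C.e_pos
      simp only [zp]
      linarith
    have := stay (S := Ici (0 : ℝ) ×ˢ ({1} : Set ℝ))
      ((convex_Ici _).prod (convex_singleton _)).isPreconnected hθc.continuousOn
      (lo := 3 * π / 2) (hi := 5 * π / 2) ?_ (z0 := (0, 1)) ⟨mem_Ici.2 le_rfl, rfl⟩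
      ⟨by linarith, by linarith [(r1l 0 le_rfl).2]⟩
    · intro t ht
      exact this (t, 1) ⟨ht, rfl⟩
    · rintro ⟨t, τ⟩ ⟨ht, hτ⟩
      have hτ' : τ = 1 := hτ
      subst hτ'
      have := hs t ht
      constructor
      · intro h
        have e : θ (t, 1) = π / 2 + π := by rw [h]; ring
        rw [e, Real.cos_add_pi, Real.cos_pi_div_two, neg_zero] at this
        exact lt_irrefl _ this
      · intro h
        have e : θ (t, 1) = π / 2 + 2 * π := by rw [h]; ring
        rw [e, Real.cos_add_two_pi, Real.cos_pi_div_two] at this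
        exact lt_irrefl _ this
  -- column T
  have cp : ∀ τ, 0 < cos (θ (T, τ) - γ) := by
    intro τ
    apply posOf (t := T) (τ := τ)
    rw [← Sdg, dt_sub, hU, C.ext_big C.β1 (by linarith), dt_add, dt_smul]
    have h1 : dt C.g C.g = 1 := by have := C.g_sq; simp only [dt]; linarith
    have h2 := (abs_le.1 ((abs_dt_le C.hg (d τ)).trans (hK τ))).2
    have h3 : 0 ≤ dt C.g C.B := add_nonneg (mul_nonneg C.hg1 C.B_re) (mul_nonneg C.hg2 C.B_im)
    rw [h1]
    linarith
  have cp0 : γ - π / 2 < θ (T, 0) ∧ θ (T, 0) < γ + π / 2 := by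
    have h1 := r0r T (by linarith)
    refine ⟨by linarith, ?_⟩
    by_contra h
    push Not at h
    have := Real.cos_nonpos_of_pi_div_two_le_of_le (x := θ (T, 0) - γ) (by linarith)
      (by linarith)
    linarith [cp 0]
  have cpall : ∀ τ, γ - π / 2 < θ (T, τ) ∧ θ (T, τ) < γ + π / 2 := by
    have := stay (S := ({T} : Set ℝ) ×ˢ (univ : Set ℝ))
      ((convex_singleton _).prod convex_univ).isPreconnected hθc.continuousOn
      (lo := γ - π / 2) (hi := γ + π / 2) ?_ (z0 := (T, 0)) ⟨rfl, mem_univ _⟩ cp0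
    · intro τ
      exact this (T, τ) ⟨rfl, mem_univ _⟩
    · rintro ⟨t, τ⟩ ⟨ht, -⟩
      have ht' : t = T := ht
      subst ht'
      have := cp τ
      constructor
      · intro h
        have e : θ (T, τ) - γ = -(π / 2) := by rw [h]; ring
        rw [e, Real.cos_neg, Real.cos_pi_div_two] at this
        exact lt_irrefl _ this
      · intro h
        rw [h, add_sub_cancel_left, Real.cos_pi_div_two] at this
        exact lt_irrefl _ this
  have f1 := (cpall 1).2
  have f2 := (r1r T (by linarith)).1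
  linarith

end Cfg

end Pool.MP_7ec17a_gt.T
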