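import Pool.Agent.Work.MP_7ec17a_gt_T.Side

/-!
# The two gates and the two tails
-/

set_option autoImplicit false

open Set

namespace Pool.MP_7ec17a_gt.T

namespace Cfg

variable (C : Cfg)

/-- The extended lower arc. -/
noncomputable def L (s : ℝ) : ℂ := C.ext C.α s

lemma continuous_L : Continuous C.L := C.continuous_ext C.hα

lemma L_mid {s : ℝ} (hs : s ∈ Icc (0 : ℝ) 1) : C.L s = C.α s := C.ext_mid C.α hs.1 hs.2

/-- Third vertex. -/
noncomputable def w (r s s' : ℝ) : ℂ := C.L s + rot r (C.L s' - C.L s)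

/-- Fourth vertex. -/
noncomputable def q (r s s' : ℝ) : ℂ := C.L s' + rot r (C.L s' - C.L s)

lemma cont_rot (r : ℝ) : Continuous (rot r) := by
  have h : rot r = fun v : ℂ => (-(r * v.im) : ℝ) + (r * v.re : ℝ) * Complex.I := by
    funext v
    apply Complex.ext <;> simp [rot]
  rw [h]
  fun_prop

lemma cont_w (r : ℝ) : Continuous fun z : ℝ × ℝ => C.w r z.1 z.2 := by
  have h1 := C.continuous_L
  have h2 := cont_rot r
  unfold w
  fun_prop

lemma cont_q (r : ℝ) : Continuous fun z : ℝ × ℝ => C.q r z.1 z.2 := by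
  have h1 := C.continuous_L
  have h2 := cont_rot r
  unfold q
  fun_prop

lemma q_eq (r s s' : ℝ) : C.q r s s' = C.w r s s' + (C.L s' - C.L s) := by
  unfold q w; ring

lemma norm_w_le {r : ℝ} (hr : 0 ≤ r) {p p' P : ℂ} {R : ℝ} (h : ‖p - P‖ ≤ R) (h' : ‖p' - P‖ ≤ R) :
    ‖p + rot r (p' - p) - P‖ ≤ (1 + 2 * r) * R := by
  have h1 : ‖p' - p‖ ≤ 2 * R := by
    have e : p' - p = (p' - P) - (p - P) := by ring
    rw [e]
    exact (norm_sub_le _ _).trans (by linarith)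
  have e : p + rot r (p' - p) - P = (p - P) + rot r (p' - p) := by ring
  rw [e]
  refine (norm_add_le _ _).trans ?_
  rw [norm_rot hr]
  nlinarith

/-- The gate at `0`. -/
lemma gateA {r : ℝ} (hr : 0 < r) : ∃ σ ∈ Ioo (0 : ℝ) 1, ∀ s ∈ Ico 0 σ,
    ¬(C.side (C.w r s σ) < 0 ∧ 0 < C.side (C.q r s σ)) := by
  obtain ⟨ε, hε, s1, hs1, hLA⟩ := C.LA
  set η : ℝ := ε / 2 with hη
  have hη0 : 0 < η := by positivity
  set c : ℝ := min (1 / 2) (η * ε / (4 * ((1 + 2 * r) * (2 * r + η)))) with hc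
  have hc0 : 0 < c := by positivity
  have hc2 : c ≤ 1 / 2 := min_le_left _ _
  have hc3 : c * ((1 + 2 * r) * (2 * r + η)) ≤ η * ε / 4 := by
    have h := min_le_right (1 / 2) (η * ε / (4 * ((1 + 2 * r) * (2 * r + η))))
    rw [← hc, le_div_iff₀ (by positivity)] at h
    linarith
  obtain ⟨ρ0, hρ0, hρ⟩ := C.TA c hc0
  set ρ : ℝ := min ρ0 ‖C.B‖ with hρd
  have hρp : 0 < ρ := lt_min hρ0 (norm_pos_iff.2 C.B_ne)
  have hρ' : ∀ t, ‖C.β t‖ < ρ → |cr C.e (C.β t)| ≤ c * ‖C.β t‖ := fun t ht =>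
    hρ t (ht.trans_le (min_le_left _ _))
  have hρB : ρ ≤ ‖C.B‖ := min_le_right _ _
  -- a short initial piece
  obtain ⟨d, hd, hdα⟩ := Metric.continuousAt_iff.1 (C.hα.continuousAt (x := 0))
    (ρ / (2 * (1 + 2 * r))) (by positivity)
  set s2 : ℝ := min s1 (min (1 / 2) (d / 2)) with hs2
  have hs20 : 0 < s2 := lt_min hs1.1 (lt_min (by norm_num) (by positivity))
  have hs21 : s2 ≤ s1 := min_le_left _ _
  have hs22 : s2 ≤ 1 / 2 := (min_le_right _ _).trans (min_le_left _ _)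
  have hs23 : s2 ≤ d / 2 := (min_le_right _ _).trans (min_le_right _ _)
  have hsmall : ∀ s ∈ Icc 0 s2, ‖C.α s‖ < ρ / (2 * (1 + 2 * r)) := by
    intro s hs
    have h := hdα (x := s) (by
      rw [Real.dist_eq, sub_zero, abs_of_nonneg hs.1]
      linarith [hs.2])
    rwa [C.α0 0 le_rfl, dist_zero_right] at h
  obtain ⟨sR, hsR, hRmax⟩ := (isCompact_Icc (a := (0 : ℝ)) (b := s2)).exists_isMaxOn
    ⟨0, ⟨le_rfl, hs20.le⟩⟩ (C.hα.norm.continuousOn)
  set R : ℝ := ‖C.α sR‖ with hR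
  have hRle : ∀ s ∈ Icc 0 s2, ‖C.α s‖ ≤ R := fun s hs => hRmax hs
  have hRsmall := hsmall sR hsR
  have hRpos : 0 < R := by
    refine lt_of_lt_of_le ?_ (hRle s2 ⟨hs20.le, le_rfl⟩)
    apply norm_pos_iff.2
    intro h
    have : C.α s2 = C.α 0 := by rw [h, C.α0 0 le_rfl]
    have := C.inj ⟨hs20.le, by linarith⟩ ⟨le_rfl, zero_le_one⟩ this
    linarith
  have hDc : ContinuousOn (fun s => -cr C.e (C.α s) - η * dt C.e (C.α s)) (Icc 0 s2) := by
    have h1 := (continuous_cr C.e).comp C.hα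
    have h2 := (continuous_dt C.e).comp C.hα
    exact (h1.neg.sub (h2.const_smul η)).continuousOn
  obtain ⟨σ, hσ, hσmax⟩ := (isCompact_Icc (a := (0 : ℝ)) (b := s2)).exists_isMaxOn
    ⟨0, ⟨le_rfl, hs20.le⟩⟩ hDc
  have hσle : ∀ s ∈ Icc 0 s2, -cr C.e (C.α s) - η * dt C.e (C.α s) ≤
      -cr C.e (C.α σ) - η * dt C.e (C.α σ) := fun s hs => hσmax hs
  have hD : ε / 2 * R ≤ -cr C.e (C.α σ) - η * dt C.e (C.α σ) := by
    refine le_trans ?_ (hσle sR hsR)
    have h1 := hLA sR ⟨hsR.1, hsR.2.trans hs21⟩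
    have h2 := (abs_le.1 (abs_dt_le C.he (C.α sR))).2
    rw [← hR] at h1 h2
    nlinarith
  have hσ0 : 0 < σ := by
    rcases hσ.1.lt_or_eq with h | h
    · exact h
    · exfalso
      rw [← h, C.α0 0 le_rfl] at hD
      simp only [cr, dt, Complex.zero_re, Complex.zero_im] at hD
      nlinarith
  refine ⟨σ, ⟨hσ0, by linarith [hσ.2]⟩, fun s hs => ?_⟩
  rintro ⟨hw, hq⟩
  have hsI : s ∈ Icc 0 s2 := ⟨hs.1, by linarith [hs.2, hσ.2]⟩
  have hLs : C.L s = C.α s := C.L_mid ⟨hs.1, by linarith [hs.2, hσ.2]⟩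
  have hLσ : C.L σ = C.α σ := C.L_mid ⟨hσ0.le, by linarith [hσ.2]⟩
  set p := C.α s with hp
  set p' := C.α σ with hp'
  set v := p' - p with hv
  have ew : C.w r s σ = p + rot r v := by unfold w; rw [hLs, hLσ]
  have eq : C.q r s σ = p' + rot r v := by unfold q; rw [hLs, hLσ]
  rw [ew] at hw
  rw [eq] at hq
  have hR' : (1 + 2 * r) * R < ρ := by
    rw [lt_div_iff₀ (by positivity)] at hRsmall
    nlinarith
  have nw : ‖p + rot r v‖ ≤ (1 + 2 * r) * R := by
    have := norm_w_le hr.le (p := p) (p' := p') (P := 0) (R := R)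
      (by rw [sub_zero]; exact hRle s hsI) (by rw [sub_zero]; exact hRle σ hσ)
    rwa [sub_zero] at this
  have nq : ‖p' + rot r v‖ ≤ (1 + 2 * r) * R := by
    have h1 : ‖v‖ ≤ 2 * R := by
      refine (norm_sub_le _ _).trans ?_
      have := hRle s hsI
      have := hRle σ hσ
      linarith
    refine (norm_add_le _ _).trans ?_
    rw [norm_rot hr.le]
    have := hRle σ hσ
    nlinarith
  -- `w` is not in the upper cone
  have iw : cr C.e (p + rot r v) ≤ c * ((1 + 2 * r) * R) := by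
    by_contra hlt
    push Not at hlt
    apply C.not_mem_of_side_neg hw
    apply C.coneA_Vp hρp hc0 hc2 hρB hρ' (nw.trans_lt hR')
    exact lt_of_le_of_lt (mul_le_mul_of_nonneg_left nw hc0.le) hlt
  have iq : -(c * ((1 + 2 * r) * R)) ≤ cr C.e (p' + rot r v) := by
    by_contra hlt
    push Not at hlt
    refine C.coneA_Vm hρp hc0 hc2 hρB hρ' (nq.trans_lt hR') ?_ (C.mem_of_side_pos hq)
    exact lt_of_lt_of_le hlt (neg_le_neg (mul_le_mul_of_nonneg_left nq hc0.le))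
  have htilt := hσle s hsI
  rw [← hp] at htilt
  rw [cr_add, cr_rot] at iw iq
  have v1 : cr C.e v = cr C.e p' - cr C.e p := by rw [hv, cr_sub]
  have v2 : dt C.e v = dt C.e p' - dt C.e p := by rw [hv, dt_sub]
  have hdt : 0 ≤ dt C.e p' := add_nonneg (mul_nonneg C.he1 (C.bα σ).1)
    (mul_nonneg C.he2 (C.bα σ).2.2.1)
  set V1 := dt C.e v with hV1
  have hV2 : cr C.e v ≤ -(η * V1) := by rw [v1, v2]; linarith
  -- `η V1 ≤ 2 c R'`
  have k1 : η * V1 ≤ 2 * (c * ((1 + 2 * r) * R)) := by linarith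
  have k2 : ε / 2 * R - c * ((1 + 2 * r) * R) ≤ r * V1 := by nlinarith
  have k3 : η * (ε / 2 * R - c * ((1 + 2 * r) * R)) ≤ r * (2 * (c * ((1 + 2 * r) * R))) := by
    have h1 := mul_le_mul_of_nonneg_left k2 hη0.le
    have h2 := mul_le_mul_of_nonneg_left k1 hr.le
    nlinarith
  have k4 : η * ε / 2 * R ≤ c * ((1 + 2 * r) * (2 * r + η)) * R := by nlinarith
  have k5 := mul_le_mul_of_nonneg_right hc3 hRpos.le
  have k6 : 0 < η * ε * R := by positivity
  nlinarith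

/-- The gate at `B`. -/
lemma gateB {r : ℝ} (hr : 0 < r) : ∃ σ ∈ Ioo (0 : ℝ) 1, ∀ s ∈ Ioc σ 1,
    ¬(0 < C.side (C.w r σ s) ∧ C.side (C.q r σ s) < 0) := by
  obtain ⟨ε, hε, s1, hs1, hLB⟩ := C.LB
  set η : ℝ := ε / 2 with hη
  have hη0 : 0 < η := by positivity
  set c : ℝ := min (min (1 / 2) (ε / 2)) (η * ε / (4 * ((1 + 2 * r) * (2 * r + η)))) with hc
  have hc0 : 0 < c := by positivity
  have hc2 : c ≤ 1 / 2 := (min_le_left _ _).trans (min_le_left _ _)
  have hcε : c ≤ ε / 2 := (min_le_left _ _).trans (min_le_right _ _)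
  have hc3 : c * ((1 + 2 * r) * (2 * r + η)) ≤ η * ε / 4 := by
    have h := min_le_right (min (1 / 2) (ε / 2)) (η * ε / (4 * ((1 + 2 * r) * (2 * r + η))))
    rw [← hc, le_div_iff₀ (by positivity)] at h
    linarith
  obtain ⟨ρ0, hρ0, hρ⟩ := C.TB c hc0
  set ρ : ℝ := min ρ0 ‖C.B‖ with hρd
  have hρp : 0 < ρ := lt_min hρ0 (norm_pos_iff.2 C.B_ne)
  have hρ' : ∀ t, ‖C.β t - C.B‖ < ρ → |cr C.g (C.β t - C.B)| ≤ c * ‖C.β t - C.B‖ := fun t ht =>
    hρ t (ht.trans_le (min_le_left _ _))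
  have hρB : ρ ≤ ‖C.B‖ := min_le_right _ _
  obtain ⟨d, hd, hdα⟩ := Metric.continuousAt_iff.1 (C.hα.continuousAt (x := 1))
    (ρ / (2 * (1 + 2 * r))) (by positivity)
  set s2 : ℝ := max s1 (max (1 / 2) (1 - d / 2)) with hs2
  have hs20 : s2 < 1 := max_lt hs1.2 (max_lt (by norm_num) (by linarith))
  have hs21 : s1 ≤ s2 := le_max_left _ _
  have hs22 : 1 / 2 ≤ s2 := (le_max_left _ _).trans (le_max_right _ _)
  have hs23 : 1 - d / 2 ≤ s2 := (le_max_right _ _).trans (le_max_right _ _)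
  have hsmall : ∀ s ∈ Icc s2 1, ‖C.α s - C.B‖ < ρ / (2 * (1 + 2 * r)) := by
    intro s hs
    have h := hdα (x := s) (by
      rw [Real.dist_eq, abs_lt]
      constructor <;> linarith [hs.1, hs.2])
    rwa [C.α1 1 le_rfl, dist_eq_norm] at h
  -- the sign
  have hsign : ∀ s ∈ Icc s2 1, cr C.g (C.α s - C.B) ≤ -(ε * ‖C.α s - C.B‖) := by
    intro s hs
    rcases hs.2.lt_or_eq with h | h
    · have hs' : s ∈ Ioo (0 : ℝ) 1 := ⟨by linarith [hs.1], h⟩
      have hne : 0 < ‖C.α s - C.B‖ := by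
        apply norm_pos_iff.2
        intro h0
        have : C.α s = C.α 1 := by rw [C.α1 1 le_rfl]; exact sub_eq_zero.1 h0
        have := C.inj ⟨hs'.1.le, hs'.2.le⟩ ⟨zero_le_one, le_rfl⟩ this
        linarith
      have h1 := hLB s ⟨hs21.trans hs.1, hs.2⟩
      rcases le_total 0 (cr C.g (C.α s - C.B)) with h2 | h2
      · exfalso
        rw [abs_of_nonneg h2] at h1
        apply C.α_not_Vp hs'
        apply C.coneB_Vp hρp hc0 hc2 hρB hρ'
        · refine (hsmall s hs).trans_le ?_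
          rw [div_le_iff₀ (by positivity)]
          nlinarith
        · nlinarith
      · rw [abs_of_nonpos h2] at h1
        linarith
    · rw [h, C.α1 1 le_rfl, sub_self, norm_zero, mul_zero, neg_zero]
      simp [cr]
  obtain ⟨sR, hsR, hRmax⟩ := (isCompact_Icc (a := s2) (b := (1 : ℝ))).exists_isMaxOn
    ⟨1, ⟨hs20.le, le_rfl⟩⟩ ((C.hα.sub continuous_const).norm.continuousOn (s := Icc s2 1)
      : ContinuousOn (fun s => ‖C.α s - C.B‖) _)
  set R : ℝ := ‖C.α sR - C.B‖ with hR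
  have hRle : ∀ s ∈ Icc s2 1, ‖C.α s - C.B‖ ≤ R := fun s hs => hRmax hs
  have hRsmall := hsmall sR hsR
  have hRpos : 0 < R := by
    refine lt_of_lt_of_le ?_ (hRle s2 ⟨le_rfl, hs20.le⟩)
    apply norm_pos_iff.2
    intro h
    have : C.α s2 = C.α 1 := by rw [C.α1 1 le_rfl]; exact sub_eq_zero.1 h
    have := C.inj ⟨by linarith, hs20.le⟩ ⟨zero_le_one, le_rfl⟩ this
    linarith
  have hDc : ContinuousOn (fun s => -cr C.g (C.α s - C.B) + η * dt C.g (C.α s - C.B))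
      (Icc s2 1) := by
    have h1 := (continuous_cr C.g).comp (C.hα.sub (continuous_const (y := C.B)))
    have h2 := (continuous_dt C.g).comp (C.hα.sub (continuous_const (y := C.B)))
    exact (h1.neg.add (h2.const_smul η)).continuousOn
  obtain ⟨σ, hσ, hσmax⟩ := (isCompact_Icc (a := s2) (b := (1 : ℝ))).exists_isMaxOn
    ⟨1, ⟨hs20.le, le_rfl⟩⟩ hDc
  have hσle : ∀ s ∈ Icc s2 1, -cr C.g (C.α s - C.B) + η * dt C.g (C.α s - C.B) ≤
      -cr C.g (C.α σ - C.B) + η * dt C.g (C.α σ - C.B) := fun s hs => hσmax hs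
  have hD : ε / 2 * R ≤ -cr C.g (C.α σ - C.B) + η * dt C.g (C.α σ - C.B) := by
    refine le_trans ?_ (hσle sR hsR)
    have h1 := hsign sR hsR
    have h2 := (abs_le.1 (abs_dt_le C.hg (C.α sR - C.B))).1
    rw [← hR] at h1 h2
    nlinarith
  have hσ1 : σ < 1 := by
    rcases hσ.2.lt_or_eq with h | h
    · exact h
    · exfalso
      rw [h, C.α1 1 le_rfl, sub_self] at hD
      simp only [cr, dt, Complex.zero_re, Complex.zero_im] at hD
      nlinarith
  refine ⟨σ, ⟨by linarith [hσ.1], hσ1⟩, fun s hs => ?_⟩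
  rintro ⟨hw, hq⟩
  have hsI : s ∈ Icc s2 1 := ⟨by linarith [hs.1, hσ.1], hs.2⟩
  have hLs : C.L s = C.α s := C.L_mid ⟨by linarith [hsI.1], hs.2⟩
  have hLσ : C.L σ = C.α σ := C.L_mid ⟨by linarith [hσ.1], hσ.2⟩
  set p := C.α σ with hp
  set p' := C.α s with hp'
  set v := p' - p with hv
  have ew : C.w r σ s = p + rot r v := by unfold w; rw [hLs, hLσ]
  have eq : C.q r σ s = p' + rot r v := by unfold q; rw [hLs, hLσ]
  rw [ew] at hw
  rw [eq] at hq
  have hR' : (1 + 2 * r) * R < ρ := by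
    rw [lt_div_iff₀ (by positivity)] at hRsmall
    nlinarith
  have nw : ‖p + rot r v - C.B‖ ≤ (1 + 2 * r) * R :=
    norm_w_le hr.le (hRle σ hσ) (hRle s hsI)
  have nq : ‖p' + rot r v - C.B‖ ≤ (1 + 2 * r) * R := by
    have h1 : ‖v‖ ≤ 2 * R := by
      have e : v = (p' - C.B) - (p - C.B) := by rw [hv]; ring
      rw [e]
      refine (norm_sub_le _ _).trans ?_
      have := hRle s hsI
      have := hRle σ hσ
      linarith
    have e : p' + rot r v - C.B = (p' - C.B) + rot r v := by ring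
    rw [e]
    refine (norm_add_le _ _).trans ?_
    rw [norm_rot hr.le]
    have := hRle s hsI
    nlinarith
  have iw : -(c * ((1 + 2 * r) * R)) ≤ cr C.g (p + rot r v - C.B) := by
    by_contra hlt
    push Not at hlt
    refine C.coneB_Vm hρp hc0 hc2 hρB hρ' (nw.trans_lt hR') ?_ (C.mem_of_side_pos hw)
    exact lt_of_lt_of_le hlt (neg_le_neg (mul_le_mul_of_nonneg_left nw hc0.le))
  have iq : cr C.g (p' + rot r v - C.B) ≤ c * ((1 + 2 * r) * R) := by
    by_contra hlt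
    push Not at hlt
    apply C.not_mem_of_side_neg hq
    apply C.coneB_Vp hρp hc0 hc2 hρB hρ' (nq.trans_lt hR')
    exact lt_of_le_of_lt (mul_le_mul_of_nonneg_left nq hc0.le) hlt
  have htilt := hσle s hsI
  rw [← hp'] at htilt
  have e1 : p + rot r v - C.B = (p - C.B) + rot r v := by ring
  have e2 : p' + rot r v - C.B = (p' - C.B) + rot r v := by ring
  rw [e1, cr_add, cr_rot] at iw
  rw [e2, cr_add, cr_rot] at iq
  have v1 : cr C.g v = cr C.g (p' - C.B) - cr C.g (p - C.B) := by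
    rw [← cr_sub, hv]; congr 1; ring
  have v2 : dt C.g v = dt C.g (p' - C.B) - dt C.g (p - C.B) := by
    rw [← dt_sub, hv]; congr 1; ring
  have hdt : dt C.g (p - C.B) ≤ 0 := by
    have h1 := mul_nonneg C.hg1 (sub_nonneg.2 (C.bα σ).2.1)
    have h2 := mul_nonneg C.hg2 (sub_nonneg.2 (C.bα σ).2.2.2)
    rw [← hp] at h1 h2
    simp only [dt, Complex.sub_re, Complex.sub_im]
    linarith
  set V1 := dt C.g v with hV1
  have hV2 : η * V1 ≤ cr C.g v := by rw [v1, v2]; linarith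
  have k1 : η * V1 ≤ 2 * (c * ((1 + 2 * r) * R)) := by linarith
  have k2 : ε / 2 * R - c * ((1 + 2 * r) * R) ≤ r * V1 := by nlinarith
  have k3 : η * (ε / 2 * R - c * ((1 + 2 * r) * R)) ≤ r * (2 * (c * ((1 + 2 * r) * R))) := by
    have h1 := mul_le_mul_of_nonneg_left k2 hη0.le
    have h2 := mul_le_mul_of_nonneg_left k1 hr.le
    nlinarith
  have k4 : η * ε / 2 * R ≤ c * ((1 + 2 * r) * (2 * r + η)) * R := by nlinarith
  have k5 := mul_le_mul_of_nonneg_right hc3 hRpos.le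
  have k6 : 0 < η * ε * R := by positivity
  nlinarith

end Cfg

end Pool.MP_7ec17a_gt.T
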