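import Mathlib

/-!
# Continuous arguments on convex open sets of the plane
-/

set_option autoImplicit false

open Set

namespace Pool.MP_7ec17a_gt.T

/-- A continuous argument of a nonvanishing function on a convex open set. -/
theorem exists_arg {X : Set (ℝ × ℝ)} (hX : Convex ℝ X) (hXo : IsOpen X) (hne : X.Nonempty)
    {F : ℝ × ℝ → ℂ} (hF : ContinuousOn F X) (h0 : ∀ z ∈ X, F z ≠ 0) :
    ∃ θ : ℝ × ℝ → ℝ, ContinuousOn θ X ∧
      ∀ z ∈ X, (F z).re = ‖F z‖ * Real.cos (θ z) ∧ (F z).im = ‖F z‖ * Real.sin (θ z) := by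
  have hsc : IsSimplyConnected X := by
    haveI := hX.contractibleSpace hne
    change SimplyConnectedSpace X
    infer_instance
  obtain ⟨f, hf, hfe⟩ := Complex.exists_continuousOn_eqOn_exp_comp hsc hXo hF
    (by rintro ⟨z, hz, hz0⟩; exact h0 z hz hz0)
  refine ⟨fun z => (f z).im, Complex.continuous_im.comp_continuousOn hf, fun z hz => ?_⟩
  have h : Complex.exp (f z) = F z := hfe hz
  rw [← h, Complex.norm_exp]
  exact ⟨Complex.exp_re _, Complex.exp_im _⟩

/-- A continuous function on a preconnected set that avoids two values stays between them. -/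
theorem stay {X : Type*} [TopologicalSpace X] {S : Set X} (hS : IsPreconnected S) {θ : X → ℝ}
    (hθ : ContinuousOn θ S) {lo hi : ℝ} (hav : ∀ z ∈ S, θ z ≠ lo ∧ θ z ≠ hi) {z0 : X}
    (hz0 : z0 ∈ S) (h0 : lo < θ z0 ∧ θ z0 < hi) : ∀ z ∈ S, lo < θ z ∧ θ z < hi := by
  intro z hz
  have him : (θ '' S).OrdConnected := (hS.image θ hθ).ordConnected
  have m0 : θ z0 ∈ θ '' S := mem_image_of_mem _ hz0
  have m1 : θ z ∈ θ '' S := mem_image_of_mem _ hz
  constructor
  · by_contra hlt
    push Not at hlt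
    obtain ⟨y, hy, hy'⟩ := him.out m1 m0 ⟨hlt, h0.1.le⟩
    exact (hav y hy).1 hy'
  · by_contra hlt
    push Not at hlt
    obtain ⟨y, hy, hy'⟩ := him.out m0 m1 ⟨h0.2.le, hlt⟩
    exact (hav y hy).2 hy'

end Pool.MP_7ec17a_gt.T
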